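import Pool.Agent.U151.DB.ParD
import Pool.Agent.U151.LB.ArcE

/-!
Subpaths of the exploration path of a rectangle: many vertices which are visited twice.
-/

set_option autoImplicit false

namespace Pool.Agent.U151.DB

open H974 H12S Finset H389NS H984P H984N H342P
open Pool.Agent.W822.PD (EnV)
open Pool.Agent.TH966.DP (zp dist_pos_zp zp_dist zp_inj pl_node nt nt_mul)
open Pool.Agent.U151.LB (near_orb exm_near blk_bulk mem_blk DkX far_of_sd sd_tri)

theorem RDbN_congr {t c E : ℝ} {n : ℕ} {d : ℤ} {σ : St} {τ : ℕ} {F G : Set Edg}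
    (h1 : ∀ s ≤ τ, orb F σ s = orb G σ s) (h : RDbN t c E n d σ τ F) : RDbN t c E n d σ τ G := by
  obtain ⟨V, e1, e2, e3⟩ := h
  refine ⟨V, e1, e2, fun v hv => ?_⟩
  obtain ⟨s1, s3, s2, g1, g2, g3, g4, g5, g6⟩ := e3 v hv
  refine ⟨s1, s3, s2, g1, g2, g3, ?_, ?_, ?_⟩
  · rw [← h1 s1 (by omega)]; exact g4
  · rw [← h1 s2 (by omega)]; exact g5
  · rw [← h1 s3 (by omega)]; exact g6

/-- Some piece of size `R` of an orbit in the bulk of the domain has few double visits. -/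
def BadX (t c E : ℝ) (n a R : ℕ) (D : Dm) (F : Finset Edg) : Prop :=
  ∃ (σ : St) (τ : ℕ), inR (D.l + 4 * R) (D.r - 4 * R) (4 * R) (D.h - 4 * R) σ.1 ∧
    (∀ s < τ, ¬ Far σ.1 R (orb (D.cfg F) σ s).1) ∧ Far σ.1 R (orb (D.cfg F) σ τ).1 ∧
    ¬ RDbN t c E n (2 * a) σ τ (D.cfg F)

theorem badX_le {t c E : ℝ} {n a R : ℕ} {D : Dm} (hR : 1 ≤ R)
    (hr : D.r ≤ D.l + n) (hh : D.h ≤ n) :
    Pr (fun _ => (1/2:ℝ)) D.edges (BadX t c E n a R D) ≤
      Pr (fun _ => (1/2:ℝ)) (RE D.l (D.l + n) 0 (0 + n)) (BadN t c E n a R D.l 0) := by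
  have hok : Ok (fun _ : Edg => (1/2:ℝ)) := fun _ => ⟨by norm_num, by norm_num⟩
  have hsub : D.edges ⊆ RE D.l (D.l + n) 0 (0 + n) := by
    intro e he
    unfold Dm.edges at he
    obtain ⟨x, y, _ | _⟩ := e
    · rw [mem_RE_false] at he ⊢
      omega
    · rw [mem_RE_true] at he ⊢
      omega
  rw [← H973.Pr_restrict hsub]
  refine Pr_mono hok ?_
  rintro F hF ⟨σ, τ, h1, h2, h3, h4⟩
  have hFG : ∀ e ∈ blk σ.1 (2 * R), (e ∈ D.cfg (F ∩ D.edges) ↔ e ∈ (↑F : Set Edg)) := by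
    intro e he
    obtain ⟨g1, g2⟩ := blk_bulk hR h1 he
    unfold Dm.cfg
    rw [Set.mem_union, Finset.mem_coe, Finset.mem_coe, Finset.mem_inter]
    constructor
    · rintro (h | h)
      · exact h.1
      · exact absurd h g2
    · intro h
      exact Or.inl ⟨h, g1⟩
  have hex : ∀ e ∈ Exm (D.cfg (F ∩ D.edges)) σ τ,
      (e ∈ D.cfg (F ∩ D.edges) ↔ e ∈ (↑F : Set Edg)) := by
    intro e he
    apply hFG
    have h5 := exm_near h2 he
    rw [mem_blk] at h5 ⊢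
    push_cast at h5 ⊢
    constructor <;> omega
  have horb : ∀ s ≤ τ, orb (↑F : Set Edg) σ s = orb (D.cfg (F ∩ D.edges)) σ s := fun s hs =>
    orb_congr hex hs
  refine ⟨σ, τ, ?_, fun s hs => ?_, ?_, fun hcon => h4 ?_⟩
  · unfold inR at h1 ⊢
    omega
  · rw [horb s hs.le]
    exact h2 s hs
  · rw [horb τ le_rfl]
    exact h3
  · exact RDbN_congr horb hcon

theorem arc_VD {t c E : ℝ} {n a r : ℕ} (hr1 : 1 ≤ r) (R : Rect) {d : ℝ} (hd : 0 < d) {F : Finset Edg}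
    (hbad : ¬ BadX t c E n a r (R.dm d) F) {x y : unitInterval}
    (hxy : x ≤ y) {κ1 : ℝ} (hr : d * (r + 4) ≤ κ1) (hD : R.curve d F x ∈ DkX R (5 * κ1))
    (hdist : 2 * κ1 < dist (R.curve d F x) (R.curve d F y)) :
    ∃ V : Finset Vtx, c * (n : ℝ) ^ (3/4 : ℝ) ≤ (V.card : ℝ) ∧
      EnV t V ≤ E * (n : ℝ) ^ (3/2 - t) ∧ ∀ w ∈ V,
        inR ((R.dm d).l) ((R.dm d).r) 0 ((R.dm d).h) w ∧
        ∃ i1 i3 i2 : ℕ, ∃ s1 s3 s2 : unitInterval,
          (x ≤ s1 ∧ s1 ≤ s3 ∧ s3 ≤ s2 ∧ s2 ≤ y) ∧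
          (R.curve d F s1 = pos d ((R.dm d).walk F i1) ∧
            R.curve d F s3 = pos d ((R.dm d).walk F i3) ∧
            R.curve d F s2 = pos d ((R.dm d).walk F i2)) ∧
          (sd ((R.dm d).walk F i1).1 w ≤ 1 ∧ sd ((R.dm d).walk F i2).1 w ≤ 1) ∧
          Far w (2 * a) ((R.dm d).walk F i3).1 := by
  obtain ⟨N, hNdef⟩ : ∃ N, N = (R.dm d).len F := ⟨_, rfl⟩
  have hr0 : (0:ℝ) ≤ r := Nat.cast_nonneg _
  have hκ1 : 0 < κ1 := lt_of_lt_of_le (by positivity) hr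
  have hN : 0 < N := by
    rcases Nat.eq_zero_or_pos N with h | h
    · exfalso
      have e : ∀ s : unitInterval, R.curve d F s = pos d ((R.dm d).walk F 0) := by
        intro s
        unfold Rect.curve
        rw [← hNdef, h, pl_apply']
        simp
      rw [e, e, dist_self] at hdist
      linarith
    · exact h
  have hN' : (0:ℝ) < N := by exact_mod_cast hN
  have hcurve : ∀ s, R.curve d F s = pl N (fun k => pos d ((R.dm d).walk F k)) s := by
    intro s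
    unfold Rect.curve
    rw [← hNdef]
  have hst := fun k => Pool.Agent.W462.DPL.step (R := R) hd.le F k
  obtain ⟨i, hiN, ⟨hi1, hi2⟩, hi⟩ := Pool.Agent.W462.DPL.pl_close' hN
    (p := fun k => pos d ((R.dm d).walk F k)) (fun k _ => hst k) x
  obtain ⟨j, hjN, ⟨hj1, hj2⟩, hj⟩ := Pool.Agent.W462.DPL.pl_close' hN
    (p := fun k => pos d ((R.dm d).walk F k)) (fun k _ => hst k) y
  rw [← hcurve] at hi hj
  have hxy' : (x : ℝ) ≤ y := hxy
  have hxyN : (x : ℝ) * N ≤ y * N := mul_le_mul_of_nonneg_right hxy' hN'.le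
  -- the indices
  have hij : i + 1 ≤ j := by
    by_contra hcon
    have h1 : j ≤ i := by omega
    have h2 : i ≤ j + 1 := by
      have : (i : ℝ) ≤ j + 1 := by linarith
      exact_mod_cast this
    have h3 : dist (pos d ((R.dm d).walk F i)) (pos d ((R.dm d).walk F j)) ≤ d / 2 := by
      rcases (show i = j ∨ i = j + 1 by omega) with h | h
      · rw [h, dist_self]; positivity
      · rw [h, dist_comm]; exact hst j
    have h4 := dist_triangle4 (R.curve d F x) (pos d ((R.dm d).walk F i))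
      (pos d ((R.dm d).walk F j)) (R.curve d F y)
    rw [dist_comm (pos d ((R.dm d).walk F j)) (R.curve d F y)] at h4
    nlinarith
  have hi' : dist (R.curve d F x) (pos d ((R.dm d).walk F (i + 1))) ≤ d := by
    have h1 := hst i
    have h2 := dist_triangle (R.curve d F x) (pos d ((R.dm d).walk F i))
      (pos d ((R.dm d).walk F (i + 1)))
    linarith
  obtain ⟨σ', hσ'⟩ : ∃ σ' : St, σ' = (R.dm d).walk F (i + 1) := ⟨_, rfl⟩
  obtain ⟨m, hm⟩ : ∃ m, j = m + (i + 1) := ⟨j - (i + 1), by omega⟩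
  have hwalk : ∀ s, (R.dm d).walk F (s + (i + 1)) = orb ((R.dm d).cfg F) σ' s := by
    intro s
    rw [hσ']
    unfold Dm.walk
    rw [orb_add]
  rw [← hσ'] at hi'
  rw [hm, hwalk] at hj
  have hzi : dist (R.curve d F x) (zp d σ'.1) ≤ 3 / 2 * d := by
    have h1 := dist_pos_zp hd.le σ'
    have h2 := dist_triangle (R.curve d F x) (pos d σ') (zp d σ'.1)
    linarith
  have hzj : dist (R.curve d F y) (zp d (orb ((R.dm d).cfg F) σ' m).1) ≤ d := by
    have h1 := dist_pos_zp hd.le (orb ((R.dm d).cfg F) σ' m)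
    have h2 := dist_triangle (R.curve d F y) (pos d (orb ((R.dm d).cfg F) σ' m))
      (zp d (orb ((R.dm d).cfg F) σ' m).1)
    linarith
  have hfar : Far σ'.1 r (orb ((R.dm d).cfg F) σ' m).1 := by
    apply far_of_sd
    by_contra hcon
    push Not at hcon
    have h1 : ((sd σ'.1 (orb ((R.dm d).cfg F) σ' m).1 : ℤ) : ℝ) ≤ r := by
      have : sd σ'.1 (orb ((R.dm d).cfg F) σ' m).1 ≤ (r : ℤ) := hcon.le
      exact_mod_cast this
    have h2 := Y989.FR.LIM3.zp_le hd.le σ'.1 (orb ((R.dm d).cfg F) σ' m).1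
    have h3 : d * ((sd σ'.1 (orb ((R.dm d).cfg F) σ' m).1 : ℤ) : ℝ) ≤ d * r :=
      mul_le_mul_of_nonneg_left h1 hd.le
    have h4 := dist_triangle4 (R.curve d F x) (zp d σ'.1)
      (zp d (orb ((R.dm d).cfg F) σ' m).1) (R.curve d F y)
    rw [dist_comm (zp d (orb ((R.dm d).cfg F) σ' m).1) (R.curve d F y)] at h4
    nlinarith
  -- first exit
  have hex : ∃ τ, Far σ'.1 r (orb ((R.dm d).cfg F) σ' τ).1 := ⟨m, hfar⟩
  classical
  obtain ⟨τ, hτ, hτ1, hτm⟩ : ∃ τ, Far σ'.1 r (orb ((R.dm d).cfg F) σ' τ).1 ∧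
      (∀ s < τ, ¬ Far σ'.1 r (orb ((R.dm d).cfg F) σ' s).1) ∧ τ ≤ m :=
    ⟨Nat.find hex, Nat.find_spec hex, fun s hs => Nat.find_min hex hs, Nat.find_min' hex hfar⟩
  have hin : inR ((R.dm d).l + 4 * r) ((R.dm d).r - 4 * r) (4 * r) ((R.dm d).h - 4 * r) σ'.1 := by
    obtain ⟨⟨d1, d2⟩, d3, d4⟩ := hD
    have e1 : |(R.curve d F x).re - (zp d σ'.1).re| ≤ 3 / 2 * d := by
      have := Complex.abs_re_le_norm (R.curve d F x - zp d σ'.1)
      rw [Complex.sub_re, ← dist_eq_norm] at this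
      exact this.trans hzi
    have e2 : |(R.curve d F x).im - (zp d σ'.1).im| ≤ 3 / 2 * d := by
      have := Complex.abs_im_le_norm (R.curve d F x - zp d σ'.1)
      rw [Complex.sub_im, ← dist_eq_norm] at this
      exact this.trans hzi
    rw [abs_le] at e1 e2
    have p1 : (zp d σ'.1).re = d * σ'.1.1 := rfl
    have p2 : (zp d σ'.1).im = d * (σ'.1.2 + 1) := rfl
    rw [p1] at e1
    rw [p2] at e2
    have fl : ((⌊-(R.A / d)⌋ : ℤ) : ℝ) ≤ -(R.A / d) := Int.floor_le _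
    have cB : R.B / d ≤ ((⌈R.B / d⌉ : ℤ) : ℝ) := Int.le_ceil _
    have cH : R.H / d ≤ ((⌈R.H / d⌉ : ℤ) : ℝ) := Int.le_ceil _
    have fl' : d * ((⌊-(R.A / d)⌋ : ℤ) : ℝ) ≤ -R.A := by
      have := mul_le_mul_of_nonneg_left fl hd.le
      have e : d * -(R.A / d) = -R.A := by field_simp
      linarith
    have cB' : R.B ≤ d * ((⌈R.B / d⌉ : ℤ) : ℝ) := by
      have := mul_le_mul_of_nonneg_left cB hd.le
      have e : d * (R.B / d) = R.B := by field_simp
      linarith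
    have cH' : R.H ≤ d * ((⌈R.H / d⌉ : ℤ) : ℝ) := by
      have := mul_le_mul_of_nonneg_left cH hd.le
      have e : d * (R.H / d) = R.H := by field_simp
      linarith
    have q : ∀ u w : ℤ, d * (u : ℝ) < d * w → u < w := by
      intro u w h
      have := lt_of_mul_lt_mul_left h hd.le
      exact_mod_cast this
    have hl : (R.dm d).l = ⌊-(R.A / d)⌋ + 1 := rfl
    have hrr : (R.dm d).r = ⌈R.B / d⌉ - 1 := rfl
    have hh : (R.dm d).h = ⌈R.H / d⌉ - 2 := rfl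
    unfold inR
    rw [hl, hrr, hh]
    have g1 : ⌊-(R.A / d)⌋ + 1 + 4 * (r : ℤ) < σ'.1.1 := by
      apply q
      push_cast
      nlinarith
    have g2 : σ'.1.1 < ⌈R.B / d⌉ - 1 - 4 * (r : ℤ) := by
      apply q
      push_cast
      nlinarith
    have g3 : 4 * (r : ℤ) < σ'.1.2 := by
      apply q
      push_cast
      nlinarith
    have g4 : σ'.1.2 < ⌈R.H / d⌉ - 2 - 4 * (r : ℤ) := by
      apply q
      push_cast
      nlinarith
    exact ⟨⟨g1.le, g2.le⟩, g3.le, g4.le⟩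
  have hgood : RDbN t c E n (2 * a) σ' τ ((R.dm d).cfg F) := by
    by_contra hcon
    exact hbad ⟨σ', τ, hin, hτ1, hτ, hcon⟩
  obtain ⟨V, hV1, hV2, hV3⟩ := hgood
  refine ⟨V, hV1, hV2, fun w hw => ?_⟩
  obtain ⟨s1, s3, s2, h13, h32, h2τ, hs1, hs2, hs3⟩ := hV3 w hw
  have hlen : ∀ s ≤ τ, s + (i + 1) ≤ N := by intro s hs; omega
  have hle : ∀ s ≤ τ, s + (i + 1) ≤ j := by intro s hs; omega
  have hnode : ∀ s (hs : s ≤ τ), R.curve d F (nt N (s + (i + 1)) (hlen s hs)) =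
      pos d ((R.dm d).walk F (s + (i + 1))) := by
    intro s hs
    rw [hcurve]
    exact pl_node (fun k => pos d ((R.dm d).walk F k)) hN (hlen s hs) (nt_mul hN (hlen s hs))
  refine ⟨?_, s1 + (i + 1), s3 + (i + 1), s2 + (i + 1), nt N _ (hlen s1 (by omega)),
    nt N _ (hlen s3 (by omega)), nt N _ (hlen s2 (by omega)), ⟨?_, ?_, ?_, ?_⟩,
    ⟨hnode _ (by omega), hnode _ (by omega), hnode _ (by omega)⟩, ⟨?_, ?_⟩, ?_⟩
  · have h1 := near_orb hτ1 (show s1 ≤ τ by omega)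
    have h2 := hs1
    unfold sd at h1 h2
    rw [max_le_iff, abs_le, abs_le] at h1 h2
    unfold inR at hin ⊢
    omega
  · show (x : ℝ) ≤ ((s1 + (i + 1) : ℕ) : ℝ) / N
    rw [le_div_iff₀ hN']
    push_cast
    have : (0:ℝ) ≤ s1 := Nat.cast_nonneg _
    linarith
  · show ((s1 + (i + 1) : ℕ) : ℝ) / N ≤ ((s3 + (i + 1) : ℕ) : ℝ) / N
    gcongr
  · show ((s3 + (i + 1) : ℕ) : ℝ) / N ≤ ((s2 + (i + 1) : ℕ) : ℝ) / N
    gcongr
  · show ((s2 + (i + 1) : ℕ) : ℝ) / N ≤ y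
    rw [div_le_iff₀ hN']
    have : ((s2 + (i + 1) : ℕ) : ℝ) ≤ j := by exact_mod_cast hle s2 (by omega)
    linarith
  · rw [hwalk]; exact hs1
  · rw [hwalk]; exact hs2
  · rw [hwalk]; exact hs3

end Pool.Agent.U151.DB
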