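import Pool.Agent.U151.LB.LimV

/-!
Passage to the limit for all arcs of a curve simultaneously, closed sets which depend on the arc.
-/

set_option autoImplicit false

namespace Pool.Agent.U151.DB

open Set Filter Topology Metric Pool.Agent.H389R2.Dim MeasureTheory H342L
open Pool.Agent.Y989.FR Pool.Agent.Y989.FR.LG Pool.Agent.W822.PD
open scoped ENNReal NNReal

/-- The point is visited, approximately, at two times in `[u, v]`, with an excursion to distance `η`
in between. -/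
def Qd (η : ℝ) (u v : unitInterval) (k : ℕ) : Set (C(unitInterval, ℂ) × ℂ) :=
  {p | ∃ w : unitInterval × unitInterval × unitInterval,
    ((u ≤ w.1 ∧ w.1 ≤ w.2.1) ∧ (w.2.1 ≤ w.2.2 ∧ w.2.2 ≤ v)) ∧
    (dist (p.1 w.1) p.2 ≤ 1 / ((k : ℝ) + 1) ∧ dist (p.1 w.2.2) p.2 ≤ 1 / ((k : ℝ) + 1)) ∧
      η ≤ dist (p.1 w.2.1) p.2}

theorem isClosed_Qd (η : ℝ) (u v : unitInterval) (k : ℕ) : IsClosed (Qd η u v k) := by
  have hcl : IsClosed {q : (C(unitInterval, ℂ) × ℂ) × (unitInterval × unitInterval × unitInterval) |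
      ((u ≤ q.2.1 ∧ q.2.1 ≤ q.2.2.1) ∧ (q.2.2.1 ≤ q.2.2.2 ∧ q.2.2.2 ≤ v)) ∧
      (dist (q.1.1 q.2.1) q.1.2 ≤ 1 / ((k : ℝ) + 1) ∧
        dist (q.1.1 q.2.2.2) q.1.2 ≤ 1 / ((k : ℝ) + 1)) ∧ η ≤ dist (q.1.1 q.2.2.1) q.1.2} := by
    have c1 : Continuous (fun q : (C(unitInterval, ℂ) × ℂ) ×
      (unitInterval × unitInterval × unitInterval) => q.2.1) := by fun_prop
    have c2 : Continuous (fun q : (C(unitInterval, ℂ) × ℂ) ×
      (unitInterval × unitInterval × unitInterval) => q.2.2.1) := by fun_prop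
    have c3 : Continuous (fun q : (C(unitInterval, ℂ) × ℂ) ×
      (unitInterval × unitInterval × unitInterval) => q.2.2.2) := by fun_prop
    have c4 : Continuous (fun q : (C(unitInterval, ℂ) × ℂ) ×
      (unitInterval × unitInterval × unitInterval) => q.1.2) := by fun_prop
    have e1 : Continuous (fun q : (C(unitInterval, ℂ) × ℂ) ×
      (unitInterval × unitInterval × unitInterval) => q.1.1 q.2.1) := by fun_prop
    have e2 : Continuous (fun q : (C(unitInterval, ℂ) × ℂ) ×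
      (unitInterval × unitInterval × unitInterval) => q.1.1 q.2.2.1) := by fun_prop
    have e3 : Continuous (fun q : (C(unitInterval, ℂ) × ℂ) ×
      (unitInterval × unitInterval × unitInterval) => q.1.1 q.2.2.2) := by fun_prop
    refine IsClosed.inter (IsClosed.inter (IsClosed.inter ?_ ?_) (IsClosed.inter ?_ ?_))
      (IsClosed.inter (IsClosed.inter ?_ ?_) ?_)
    · exact isClosed_le continuous_const (continuous_subtype_val.comp c1)
    · exact isClosed_le (continuous_subtype_val.comp c1) (continuous_subtype_val.comp c2)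
    · exact isClosed_le (continuous_subtype_val.comp c2) (continuous_subtype_val.comp c3)
    · exact isClosed_le (continuous_subtype_val.comp c3) continuous_const
    · exact isClosed_le (e1.dist c4) continuous_const
    · exact isClosed_le (e3.dist c4) continuous_const
    · exact isClosed_le continuous_const (e2.dist c4)
  have h2 := isClosedMap_fst_of_compactSpace _ hcl
  have h3 : Qd η u v k = Prod.fst ''
      {q : (C(unitInterval, ℂ) × ℂ) × (unitInterval × unitInterval × unitInterval) |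
      ((u ≤ q.2.1 ∧ q.2.1 ≤ q.2.2.1) ∧ (q.2.2.1 ≤ q.2.2.2 ∧ q.2.2.2 ≤ v)) ∧
      (dist (q.1.1 q.2.1) q.1.2 ≤ 1 / ((k : ℝ) + 1) ∧
        dist (q.1.1 q.2.2.2) q.1.2 ≤ 1 / ((k : ℝ) + 1)) ∧ η ≤ dist (q.1.1 q.2.2.1) q.1.2} := by
    ext p
    constructor
    · rintro ⟨w, h⟩
      exact ⟨(p, w), h, rfl⟩
    · rintro ⟨⟨p', w⟩, h, rfl⟩
      exact ⟨w, h⟩
  rw [← h3] at h2
  exact h2

/-- All arcs starting in `D` with end points at distance more than `κ` are good. -/
def GB (t e c κ : ℝ) (D K : Set ℂ)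
    (Q : unitInterval → unitInterval → ℕ → Set (C(unitInterval, ℂ) × ℂ))
    (f : C(unitInterval, ℂ)) : Prop :=
  ∀ u v : unitInterval, u ≤ v → f u ∈ D → κ < dist (f u) (f v) →
    Good t e c (AA K (Q u v) e f)

theorem isClosed_GB {t e c κ : ℝ} {D K : Set ℂ}
    {Q : unitInterval → unitInterval → ℕ → Set (C(unitInterval, ℂ) × ℂ)}
    (hQ : ∀ u v k, IsClosed (Q u v k)) (hK : IsCompact K) (hD : IsOpen D) :
    IsClosed {f | GB t e c κ D K Q f} := by
  have h : {f | GB t e c κ D K Q f} = ⋂ (u : unitInterval) (v : unitInterval) (_ : u ≤ v),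
      ({f : C(unitInterval, ℂ) | f u ∈ D}ᶜ ∪ ({f : C(unitInterval, ℂ) | κ < dist (f u) (f v)}ᶜ ∪
        {f : C(unitInterval, ℂ) | Good t e c (AA K (Q u v) e f)})) := by
    ext f
    simp only [GB, mem_ofPred_eq, mem_iInter, mem_union, mem_compl_iff]
    constructor
    · intro h u v huv
      by_cases h1 : f u ∈ D
      · by_cases h2 : κ < dist (f u) (f v)
        · exact Or.inr (Or.inr (h u v huv h1 h2))
        · exact Or.inr (Or.inl h2)
      · exact Or.inl h1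
    · intro h u v huv h1 h2
      rcases h u v huv with h3 | h3 | h3
      · exact absurd h1 h3
      · exact absurd h2 h3
      · exact h3
  rw [h]
  refine isClosed_iInter fun u => isClosed_iInter fun v => isClosed_iInter fun _ => ?_
  have c1 : ∀ w : unitInterval, Continuous (fun f : C(unitInterval, ℂ) => f w) := fun w => by
    fun_prop
  refine (hD.preimage (c1 u)).isClosed_compl.union (IsClosed.union ?_ ?_)
  · exact (isOpen_lt continuous_const ((c1 u).dist (c1 v))).isClosed_compl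
  · exact isClosed_good_AA (fun k => hQ u v k) hK

theorem GB_anti {t e e' c κ : ℝ} {D K : Set ℂ}
    {Q : unitInterval → unitInterval → ℕ → Set (C(unitInterval, ℂ) × ℂ)}
    (he : e ≤ e') {f : C(unitInterval, ℂ)} (h : GB t e c κ D K Q f) : GB t e' c κ D K Q f :=
  fun u v huv h1 h2 => ((h u v huv h1 h2).mono (AA_mono he f)).anti he

/-- The limit. -/
theorem GB_lim {t c κ : ℝ} {D K : Set ℂ}
    {Q : unitInterval → unitInterval → ℕ → Set (C(unitInterval, ℂ) × ℂ)} (ht : 0 < t)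
    (hc : 0 < c) (hK : IsCompact K) (hQ : ∀ u v k, IsClosed (Q u v k))
    {T : unitInterval → unitInterval → Set ℂ}
    {f : C(unitInterval, ℂ)} (hT : ∀ u v, ∀ z ∈ K, (∀ k, (f, z) ∈ Q u v k) → z ∈ T u v)
    (h : ∀ n : ℕ, GB t (1 / ((n : ℝ) + 1)) c κ D K Q f) {u v : unitInterval} (huv : u ≤ v)
    (h1 : f u ∈ D) (h2 : κ < dist (f u) (f v)) :
    ENNReal.ofReal t ≤ dimH (T u v) := by
  have hQ' := fun k => hQ u v k
  have h4 : ∀ δ' : ℝ, 0 < δ' → Good t δ' c (AA K (Q u v) 0 f) := by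
    intro δ' hδ'
    apply LG.good_zero hQ' hK
    intro n
    obtain ⟨m, hm⟩ := exists_nat_one_div_lt hδ'
    have h5 := h (max n m) u v huv h1 h2
    have h6 : (1 : ℝ) / (((max n m : ℕ) : ℝ) + 1) ≤ 1 / ((n : ℝ) + 1) :=
      Nat.one_div_le_one_div (le_max_left _ _)
    have h7 : (1 : ℝ) / (((max n m : ℕ) : ℝ) + 1) ≤ 1 / ((m : ℝ) + 1) :=
      Nat.one_div_le_one_div (le_max_right _ _)
    exact (h5.mono (AA_mono h6 f)).anti (h7.trans hm.le)
  refine (le_dimH_of_good ht hc (isCompact_AA hQ' hK f) h4).trans (dimH_mono ?_)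
  rintro z ⟨hz, hh⟩
  exact hT u v z hz (fun k => hh k (by positivity))

/-- Abstract passage to the limit for all arcs. -/
theorem lgB {Y : Type*} [TopologicalSpace Y] [MeasurableSpace Y] [OpensMeasurableSpace Y]
    [HasOuterApproxClosed Y] (path : Y → C(unitInterval, ℂ))
    {μs : ℕ → ProbabilityMeasure Y} {μ : ProbabilityMeasure Y}
    (hμ : Tendsto μs atTop (𝓝 μ)) {t κ : ℝ} {D : Set ℂ} (ht : 0 < t)
    (T : C(unitInterval, ℂ) → unitInterval → unitInterval → Set ℂ)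
    (h : ∀ ε : ℝ≥0∞, 0 < ε → ∃ (c : ℝ) (K : Set ℂ)
      (Q : unitInterval → unitInterval → ℕ → Set (C(unitInterval, ℂ) × ℂ)), 0 < c ∧
      IsCompact K ∧ (∀ u v k, IsClosed (Q u v k)) ∧
      (∀ ε' : ℝ, IsClosed {y : Y | GB t ε' c κ D K Q (path y)}) ∧
      (∀ f, ∀ u v, ∀ z ∈ K, (∀ k, (f, z) ∈ Q u v k) → z ∈ T f u v) ∧
      ∀ ε' : ℝ, 0 < ε' → ∀ᶠ i in atTop,
        (μs i : Measure Y) {y : Y | ¬ GB t ε' c κ D K Q (path y)} ≤ ε) :
    ∀ᵐ y : Y ∂(μ : Measure Y), ∀ u v : unitInterval, u ≤ v → path y u ∈ D →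
      κ < dist (path y u) (path y v) → ENNReal.ofReal t ≤ dimH (T (path y) u v) := by
  rw [ae_iff, ← nonpos_iff_eq_zero]
  apply ENNReal.le_of_forall_pos_le_add
  intro ε hε _
  obtain ⟨c, K, Q, hc, hK, hQ, hcl, hT, h1⟩ := h ε (by exact_mod_cast hε)
  have h2 : ∀ ε' : ℝ, 0 < ε' →
      (μ : Measure Y) {y : Y | ¬ GB t ε' c κ D K Q (path y)} ≤ ε := by
    intro ε' hε'
    refine (ProbabilityMeasure.le_liminf_measure_open_of_tendsto hμ
      (hcl ε').isOpen_compl).trans ?_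
    exact liminf_le_of_frequently_le (h1 ε' hε').frequently
  set Bd : ℕ → Set Y := fun n =>
    {y : Y | ¬ GB t (1 / ((n : ℝ) + 1)) c κ D K Q (path y)} with hBd
  have hmono : Monotone Bd := by
    intro n n' hnn p hp hG
    exact hp (GB_anti (Nat.one_div_le_one_div hnn) hG)
  have h3 : {y : Y | ¬ ∀ u v : unitInterval, u ≤ v → path y u ∈ D →
      κ < dist (path y u) (path y v) →
        ENNReal.ofReal t ≤ dimH (T (path y) u v)} ⊆ ⋃ n : ℕ, Bd n := by
    intro y hy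
    by_contra hcon
    simp only [hBd, Set.mem_iUnion, Set.mem_ofPred_eq, not_exists, not_not] at hcon
    exact hy fun u v huv h4 h5 => GB_lim ht hc hK hQ (hT _) hcon huv h4 h5
  refine le_trans (measure_mono h3) ?_
  rw [zero_add, hmono.measure_iUnion]
  exact iSup_le fun n => h2 _ (by positivity)

/-- The points which `f` visits at two times in `[u, v]`, with an excursion in between. -/
def Dp (f : C(unitInterval, ℂ)) (u v : unitInterval) : Set ℂ :=
  {z | ∃ a b c : unitInterval, (u ≤ a ∧ a ≤ b) ∧ (b ≤ c ∧ c ≤ v) ∧ f a = z ∧ f c = z ∧ f b ≠ z}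

theorem Dp_of_Qd {η : ℝ} (hη : 0 < η) {f : C(unitInterval, ℂ)} {u v : unitInterval} {z : ℂ}
    (h : ∀ k, (f, z) ∈ Qd η u v k) : z ∈ Dp f u v := by
  choose w hw using h
  obtain ⟨x, -, φ, hφ, hx⟩ := isCompact_univ.tendsto_subseq (x := w) (fun n => mem_univ (w n))
  have x1 : Tendsto (fun n => (w (φ n)).1) atTop (𝓝 x.1) :=
    (continuous_fst.tendsto x).comp hx
  have x2 : Tendsto (fun n => (w (φ n)).2.1) atTop (𝓝 x.2.1) :=
    ((continuous_fst.comp continuous_snd).tendsto x).comp hx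
  have x3 : Tendsto (fun n => (w (φ n)).2.2) atTop (𝓝 x.2.2) :=
    ((continuous_snd.comp continuous_snd).tendsto x).comp hx
  have hz : Tendsto (fun n : ℕ => (1 : ℝ) / ((φ n : ℝ) + 1)) atTop (𝓝 0) :=
    tendsto_one_div_add_atTop_nhds_zero_nat.comp hφ.tendsto_atTop
  have y1 : f x.1 = z := by
    have h1 : Tendsto (fun n => dist (f (w (φ n)).1) z) atTop (𝓝 (dist (f x.1) z)) :=
      ((f.continuous.tendsto _).comp x1).dist tendsto_const_nhds
    have h2 : dist (f x.1) z ≤ 0 := le_of_tendsto_of_tendsto' h1 hz fun n => (hw (φ n)).2.1.1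
    exact dist_le_zero.1 h2
  have y3 : f x.2.2 = z := by
    have h1 : Tendsto (fun n => dist (f (w (φ n)).2.2) z) atTop (𝓝 (dist (f x.2.2) z)) :=
      ((f.continuous.tendsto _).comp x3).dist tendsto_const_nhds
    have h2 : dist (f x.2.2) z ≤ 0 := le_of_tendsto_of_tendsto' h1 hz fun n => (hw (φ n)).2.1.2
    exact dist_le_zero.1 h2
  have y2 : f x.2.1 ≠ z := by
    have h1 : Tendsto (fun n => dist (f (w (φ n)).2.1) z) atTop (𝓝 (dist (f x.2.1) z)) :=
      ((f.continuous.tendsto _).comp x2).dist tendsto_const_nhds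
    have h2 : η ≤ dist (f x.2.1) z := ge_of_tendsto' h1 fun n => (hw (φ n)).2.2
    intro h3
    rw [h3, dist_self] at h2
    linarith
  refine ⟨x.1, x.2.1, x.2.2, ⟨?_, ?_⟩, ⟨?_, ?_⟩, y1, y3, y2⟩
  · exact ge_of_tendsto' x1 fun n => (hw (φ n)).1.1.1
  · exact le_of_tendsto_of_tendsto' x1 x2 fun n => (hw (φ n)).1.1.2
  · exact le_of_tendsto_of_tendsto' x2 x3 fun n => (hw (φ n)).1.2.1
  · exact le_of_tendsto' x3 fun n => (hw (φ n)).1.2.2

theorem Dp_mono {f : C(unitInterval, ℂ)} {u v u' v' : unitInterval} (h1 : u' ≤ u) (h2 : v ≤ v') :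
    Dp f u v ⊆ Dp f u' v' := by
  rintro z ⟨a, b, c, ⟨g1, g2⟩, ⟨g3, g4⟩, g5⟩
  exact ⟨a, b, c, ⟨h1.trans g1, g2⟩, ⟨g3, g4.trans h2⟩, g5⟩

/-- All arcs. -/
theorem all_arcs {f : C(unitInterval, ℂ)} {t : ℝ≥0∞} {D : ℕ → Set ℂ}
    (hmono : Monotone D) (hDo : IsOpen (⋃ m, D m))
    (h : ∀ m : ℕ, ∀ u v : unitInterval, u ≤ v → f u ∈ D m →
      1 / ((m : ℝ) + 1) < dist (f u) (f v) → t ≤ dimH (Dp f u v))
    {u v : unitInterval} (h1 : (f '' Icc u v ∩ ⋃ m, D m).Nonempty)
    (h2 : ¬ (f '' Icc u v).Subsingleton) : t ≤ dimH (Dp f u v) := by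
  obtain ⟨a, b, g1, g2, g3, g4, g5⟩ := Pool.Agent.U151.LB.arc_start hDo h1 h2
  rw [mem_iUnion] at g4
  obtain ⟨m1, hm1⟩ := g4
  obtain ⟨m2, hm2⟩ := exists_nat_one_div_lt (dist_pos.2 g5)
  refine (h (max m1 m2) a b g2 (hmono (le_max_left _ _) hm1) ?_).trans (dimH_mono ?_)
  · exact lt_of_le_of_lt (Nat.one_div_le_one_div (le_max_right _ _)) hm2
  · exact Dp_mono g1 g3

end Pool.Agent.U151.DB
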