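import Pool.Agent.U151.DB.ArcDD
import Pool.Agent.U151.DB.LimB
import Pool.Agent.U151.LB.ArcY

/-!
Double points of all subpaths of the limits of the exploration path of a rectangle: lower bound.
-/

set_option autoImplicit false

namespace Pool.Agent.U151.DB

open H974 H12S Finset H389NS H984P H984N H342P
open MeasureTheory Filter Topology Pool.Agent.H389R2.Dim
open Pool.Agent.W822.PD (EnV)
open Pool.Agent.TH966.DP (zp dist_pos_zp zp_dist zp_inj pl_node nt nt_mul)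
open Pool.Agent.U151.LB (DkX isOpen_DkX iUnion_DkX mono_DkX)
open scoped ENNReal NNReal

/-- Many points with small energy make a set good. -/
theorem good_of_VD {n : ℕ} {d s : ℝ} (hd : 0 < d) (hs : 0 < s) (hn : 0 < n) (hsn : s ≤ d * n)
    {V : Finset Vtx} {t c0 E0 ε' : ℝ} {T : Set ℂ}
    (ht : 0 < t) (hc0 : 0 < c0) (hE0 : 0 < E0) (hε' : d ≤ ε')
    (hcard : c0 * (n : ℝ) ^ (3/4 : ℝ) ≤ (V.card : ℝ))
    (hEn : EnV t V ≤ E0 * (n : ℝ) ^ (3/2 - t)) (hV : ∀ w ∈ V, zp d w ∈ T) :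
    Good t ε' (2 ^ (-t) / (E0 / c0 ^ 2 * s ^ (-t))) T := by
  classical
  have hn' : (0:ℝ) < n := by exact_mod_cast hn
  have hcpos : (0 : ℝ) < (V.card : ℝ) := lt_of_lt_of_le (by positivity) hcard
  have hne : V.Nonempty := by
    rw [← Finset.card_pos]; exact_mod_cast hcpos
  have hε0 : 0 < ε' := hd.trans_le hε'
  refine good_of_energy hε0 ht.le (by positivity) (V.image (zp d)) (hne.image _) ?_ ?_
  · intro z hz
    rw [Finset.mem_coe, Finset.mem_image] at hz
    obtain ⟨w, hw, rfl⟩ := hz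
    exact hV w hw
  · rw [Finset.sum_image (fun a _ b _ hab => zp_inj hd hab),
      Finset.card_image_of_injective _ (zp_inj hd)]
    have e1 : ∀ v ∈ V, ∑ y ∈ V.image (zp d), (max (dist (zp d v) y) ε') ^ (-t) ≤
        ∑ w ∈ V, d ^ (-t) * ((max (sd v w) 1 : ℤ) : ℝ) ^ (-t) := by
      intro v _
      rw [Finset.sum_image (fun a _ b _ hab => zp_inj hd hab)]
      refine Finset.sum_le_sum fun w _ => ?_
      have hm : (1 : ℝ) ≤ ((max (sd v w) 1 : ℤ) : ℝ) := by
        exact_mod_cast le_max_right (sd v w) 1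
      rw [← Real.mul_rpow hd.le (by linarith)]
      refine Real.rpow_le_rpow_of_nonpos (by positivity) ?_ (by linarith)
      have h6 := zp_dist hd.le v w
      rcases max_cases (sd v w) 1 with h | h
      · rw [h.1]; exact h6.trans (le_max_left _ _)
      · rw [h.1]; push_cast; rw [mul_one]
        exact hε'.trans (le_max_right _ _)
    refine (Finset.sum_le_sum e1).trans ?_
    have e2 : ∑ v ∈ V, ∑ w ∈ V, d ^ (-t) * ((max (sd v w) 1 : ℤ) : ℝ) ^ (-t)
        = d ^ (-t) * EnV t V := by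
      unfold EnV
      rw [Finset.mul_sum]
      refine Finset.sum_congr rfl fun v _ => ?_
      rw [Finset.mul_sum]
    rw [e2]
    have e3 : (c0 * (n : ℝ) ^ (3/4 : ℝ)) ^ 2 ≤ (V.card : ℝ) ^ 2 :=
      pow_le_pow_left₀ (by positivity) hcard 2
    have e4 : (c0 * (n : ℝ) ^ (3/4 : ℝ)) ^ 2 = c0 ^ 2 * (n : ℝ) ^ (3/2 : ℝ) := by
      rw [mul_pow, ← Real.rpow_natCast ((n : ℝ) ^ (3/4 : ℝ)) 2, ← Real.rpow_mul hn'.le]
      norm_num
    rw [e4] at e3
    have e6 : (d * n) ^ (-t) ≤ s ^ (-t) :=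
      Real.rpow_le_rpow_of_nonpos hs hsn (by linarith)
    calc d ^ (-t) * EnV t V ≤ d ^ (-t) * (E0 * (n : ℝ) ^ (3/2 - t)) :=
          mul_le_mul_of_nonneg_left hEn (by positivity)
      _ = E0 / c0 ^ 2 * (d * n) ^ (-t) * (c0 ^ 2 * (n : ℝ) ^ (3/2 : ℝ)) := by
          have : (n : ℝ) ^ (3/2 - t) = (n:ℝ) ^ (-t) * (n : ℝ) ^ (3/2 : ℝ) := by
            rw [← Real.rpow_add hn']
            congr 1
            ring
          rw [this, Real.mul_rpow hd.le hn'.le]
          field_simp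
      _ ≤ E0 / c0 ^ 2 * s ^ (-t) * (c0 ^ 2 * (n : ℝ) ^ (3/2 : ℝ)) := by
          refine mul_le_mul_of_nonneg_right ?_ (by positivity)
          exact mul_le_mul_of_nonneg_left e6 (by positivity)
      _ ≤ E0 / c0 ^ 2 * s ^ (-t) * (V.card : ℝ) ^ 2 :=
          mul_le_mul_of_nonneg_left e3 (by positivity)

theorem sd_far {u w v : Vtx} {k : ℤ} (h : Far v k w) (h1 : sd u w ≤ 1) : k - 2 ≤ sd v u := by
  unfold Far at h
  unfold sd at h1 ⊢
  rw [max_le_iff, abs_le, abs_le] at h1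
  have e1 := le_max_left |v.1 - u.1| |v.2 - u.2|
  have e2 := le_max_right |v.1 - u.1| |v.2 - u.2|
  have f1 := le_abs_self (v.1 - u.1)
  have f2 := neg_abs_le (v.1 - u.1)
  have f3 := le_abs_self (v.2 - u.2)
  have f4 := neg_abs_le (v.2 - u.2)
  omega

theorem dist_zp_ge {d : ℝ} (hd : 0 ≤ d) (v w : Vtx) : d * ((sd v w : ℤ) : ℝ) ≤ dist (zp d v) (zp d w) :=
  zp_dist hd v w

theorem llD (R : Rect) {δ : ℕ → ℝ}
    (hδ : ∀ i, 0 < δ i) (hlim : Tendsto δ atTop (𝓝 0)) {μ : ProbabilityMeasure X}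
    (hμ : Tendsto (fun i => R.law (δ i)) atTop (𝓝 μ)) {t : ℝ} (ht : 0 < t)
    (ht1 : t < 3/4) {κ : ℝ} (hκ : 0 < κ) :
    ∀ᵐ p : X ∂(μ : Measure X), ∀ u v : unitInterval, u ≤ v →
      p.1 u ∈ DkX R (5 * (κ / 2)) → κ < dist (p.1 u) (p.1 v) →
      ENNReal.ofReal t ≤ dimH (Dp p.1 u v) := by
  refine lgB (fun p : X => p.1) hμ ht (fun f u v => Dp f u v) ?_
  intro ε hε
  obtain ⟨δ', hδ', hδε⟩ : ∃ δ : ℝ, 0 < δ ∧ ENNReal.ofReal δ ≤ ε := by
    rcases eq_or_ne ε ∞ with h | h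
    · exact ⟨1, one_pos, by rw [h]; exact le_top⟩
    · exact ⟨ε.toReal, ENNReal.toReal_pos hε.ne' h, by rw [ENNReal.ofReal_toReal h]⟩
  have hA := R.hA
  have hB' := R.hB
  have hH := R.hH
  obtain ⟨κs, S, δ0, hκs, hS, hδ0, hδ01, hsh⟩ := R.shape
  obtain ⟨ρ, c0, E0, hρ, hc0, hE0, n0, hn0⟩ :=
    parD ht ht1 (κ := κ / (16 * S)) (by positivity) hδ'
  obtain ⟨K, hKdef⟩ : ∃ K : Set ℂ, K = Set.Icc (-R.A) R.B ×ℂ Set.Icc 0 R.H := ⟨_, rfl⟩
  have hKc : IsCompact K := by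
    rw [hKdef]
    exact isCompact_Icc.reProdIm isCompact_Icc
  obtain ⟨cc, hcc⟩ : ∃ cc : ℝ, cc = 2 ^ (-t) / (E0 / c0 ^ 2 * S ^ (-t)) := ⟨_, rfl⟩
  have hcl : ∀ ε' : ℝ, IsClosed {p : X | GB t ε' cc κ (DkX R (5 * (κ / 2))) K
      (fun u v k => Qd (ρ * S) u v k) p.1} := fun ε' =>
    (isClosed_GB (fun u v k => isClosed_Qd _ _ _ _) hKc (isOpen_DkX R _)).preimage continuous_fst
  refine ⟨cc, K, fun u v k => Qd (ρ * S) u v k,
    by rw [hcc]; positivity, hKc, fun u v k => isClosed_Qd _ _ _ _, hcl, ?_, ?_⟩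
  · intro f u v z _ hz
    exact Dp_of_Qd (by positivity) hz
  · intro ε' hε'
    obtain ⟨δm, hδm⟩ : ∃ δm : ℝ, δm = min (min δ0 (ε' / 4)) (min (min S (κ / 16))
      (min (ρ * S / 8) (S / ((n0 : ℝ) + 1)))) := ⟨_, rfl⟩
    have hδm0 : 0 < δm := by
      rw [hδm]
      refine lt_min (lt_min hδ0 (by positivity)) (lt_min (lt_min hS (by positivity))
        (lt_min (by positivity) (by positivity)))
    have hev : ∀ᶠ i in atTop, δ i < δm := (tendsto_order.1 hlim).2 _ hδm0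
    filter_upwards [hev] with i hi
    have hi0 : δ i ≤ δ0 := hi.le.trans (by
      rw [hδm]; exact (min_le_left _ _).trans (min_le_left _ _))
    have hi1 : δ i ≤ ε' / 4 := hi.le.trans (by
      rw [hδm]; exact (min_le_left _ _).trans (min_le_right _ _))
    have hi2 : δ i ≤ S := hi.le.trans (by
      rw [hδm]; exact (min_le_right _ _).trans ((min_le_left _ _).trans (min_le_left _ _)))
    have hi3 : δ i ≤ κ / 16 := hi.le.trans (by
      rw [hδm]; exact (min_le_right _ _).trans ((min_le_left _ _).trans (min_le_right _ _)))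
    have hi4 : δ i ≤ ρ * S / 8 := hi.le.trans (by
      rw [hδm]; exact (min_le_right _ _).trans ((min_le_right _ _).trans (min_le_left _ _)))
    have hi5 : δ i ≤ S / ((n0 : ℝ) + 1) := hi.le.trans (by
      rw [hδm]; exact (min_le_right _ _).trans ((min_le_right _ _).trans (min_le_right _ _)))
    have hδi := hδ i
    obtain ⟨d, hd⟩ : ∃ d : ℝ, d = δ i := ⟨_, rfl⟩
    have hop : IsOpen {p : X | ¬ GB t ε' cc κ (DkX R (5 * (κ / 2))) K
        (fun u v k => Qd (ρ * S) u v k) p.1} :=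
      (hcl ε').isOpen_compl
    change (R.law (δ i) : Measure X) {p : X | ¬ GB t ε' cc κ (DkX R (5 * (κ / 2))) K
        (fun u v k => Qd (ρ * S) u v k) p.1} ≤ ε
    rw [R.law_apply (δ i) hop.measurableSet]
    refine le_trans (ENNReal.ofReal_le_ofReal ?_) hδε
    rw [← hd] at hi0 hi1 hi2 hi3 hi4 hi5 hδi ⊢
    -- the lattice scale
    obtain ⟨n, hn⟩ : ∃ n : ℕ, n = ⌈S / d⌉₊ := ⟨_, rfl⟩
    have hn1 : S / d ≤ n := by rw [hn]; exact Nat.le_ceil _
    have hn2 : (n : ℝ) < S / d + 1 := by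
      rw [hn]
      exact Nat.ceil_lt_add_one (by positivity)
    have hdn1 : S ≤ d * n := by
      rw [div_le_iff₀ hδi] at hn1
      linarith
    have hdn2 : d * n ≤ 2 * S := by
      have h1 : d * n ≤ d * (S / d + 1) := mul_le_mul_of_nonneg_left hn2.le hδi.le
      have h2 : d * (S / d + 1) = S + d := by field_simp
      linarith
    have hnn0 : n0 ≤ n := by
      have h1 : (n0 : ℝ) + 1 ≤ S / d := by
        rw [le_div_iff₀ hδi]
        rw [le_div_iff₀ (by positivity)] at hi5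
        linarith
      have h2 : (n0 : ℝ) ≤ n := by linarith
      exact_mod_cast h2
    have hnpos : 0 < n := by
      have h1 : (0:ℝ) < n := lt_of_lt_of_le (by positivity) hn1
      exact_mod_cast h1
    obtain ⟨a, r, ha5, ha1, har, hrκ, hpr⟩ := hn0 n hnn0
    have hpr := hpr (R.dm d).l 0
    have hshape := hsh d hδi hi0
    have hrl : (R.dm d).r ≤ (R.dm d).l + n := by
      have h1 := hshape.w_le.trans hn1
      have h2 : (R.dm d).r - (R.dm d).l ≤ (n : ℤ) := by exact_mod_cast h1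
      omega
    have hhn : (R.dm d).h ≤ (n : ℤ) := by
      have h1 := hshape.h_le.trans hn1
      exact_mod_cast h1
    refine le_trans ?_ ((badX_le (by omega) hrl hhn).trans hpr)
    apply Pr_mono Y989.FR.LIM3.okh
    intro F hF hbad
    by_contra hcon
    apply hbad
    intro u v huv hD hdist
    have har' : (16 : ℝ) * a ≤ r := by exact_mod_cast har
    have hdr : d * r ≤ κ / 8 := by
      have h1 : d * r ≤ d * (κ / (16 * S) * n) := mul_le_mul_of_nonneg_left hrκ hδi.le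
      have h2 : d * (κ / (16 * S) * n) = κ / (16 * S) * (d * n) := by ring
      have h3 : κ / (16 * S) * (d * n) ≤ κ / (16 * S) * (2 * S) :=
        mul_le_mul_of_nonneg_left hdn2 (by positivity)
      have h4 : κ / (16 * S) * (2 * S) = κ / 8 := by field_simp; norm_num
      linarith
    obtain ⟨V, hV1, hV2, hV3⟩ := arc_VD (κ1 := κ / 2) (by omega) R hδi hcon huv (by nlinarith) hD
      (by linarith)
    rw [hcc]
    refine good_of_VD hδi hS hnpos hdn1 ht hc0 hE0 (by linarith) hV1 hV2 ?_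
    intro w hw
    obtain ⟨hin, i1, i3, i2, s1, s3, s2, ⟨o1, o2, o3, o4⟩, ⟨c1, c3, c2⟩, ⟨n1, n2⟩, hfar⟩ := hV3 w hw
    have hda1 : ρ * S ≤ d * a := by
      have h1 := mul_le_mul_of_nonneg_left ha1 hδi.le
      have h2 : ρ * S ≤ ρ * (d * n) := mul_le_mul_of_nonneg_left hdn1 hρ.le
      linarith
    -- position of `w`
    have hl : ((R.dm d).l : ℝ) = (⌊-(R.A / d)⌋ : ℤ) + 1 := by
      have : (R.dm d).l = ⌊-(R.A / d)⌋ + 1 := rfl
      rw [this]; push_cast; ring
    have hrr : ((R.dm d).r : ℝ) = (⌈R.B / d⌉ : ℤ) - 1 := by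
      have : (R.dm d).r = ⌈R.B / d⌉ - 1 := rfl
      rw [this]; push_cast; ring
    have hh : ((R.dm d).h : ℝ) = (⌈R.H / d⌉ : ℤ) - 2 := by
      have : (R.dm d).h = ⌈R.H / d⌉ - 2 := rfl
      rw [this]; push_cast; ring
    have fl : -(R.A / d) < ((⌊-(R.A / d)⌋ : ℤ) : ℝ) + 1 := Int.lt_floor_add_one _
    have cB : ((⌈R.B / d⌉ : ℤ) : ℝ) < R.B / d + 1 := Int.ceil_lt_add_one _
    have cH : ((⌈R.H / d⌉ : ℤ) : ℝ) < R.H / d + 1 := Int.ceil_lt_add_one _
    have eA : d * (R.A / d) = R.A := by field_simp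
    have eB : d * (R.B / d) = R.B := by field_simp
    have eH : d * (R.H / d) = R.H := by field_simp
    obtain ⟨⟨w1, w2⟩, w3, w4⟩ := hin
    have w1' : ((R.dm d).l : ℝ) ≤ w.1 := by exact_mod_cast w1
    have w2' : (w.1 : ℝ) ≤ (R.dm d).r := by exact_mod_cast w2
    have w3' : (0 : ℝ) ≤ w.2 := by exact_mod_cast w3
    have w4' : (w.2 : ℝ) ≤ (R.dm d).h := by exact_mod_cast w4
    have er : (zp d w).re = d * w.1 := rfl
    have ei : (zp d w).im = d * (w.2 + 1) := rfl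
    have x1 : -R.A ≤ d * w.1 := by
      have : d * (-(R.A / d)) ≤ d * w.1 := mul_le_mul_of_nonneg_left (by linarith) hδi.le
      linarith
    have x2 : d * w.1 ≤ R.B := by
      have : d * w.1 ≤ d * (R.B / d) := mul_le_mul_of_nonneg_left (by linarith) hδi.le
      linarith
    have x3 : 0 ≤ d * ((w.2 : ℝ) + 1) := by positivity
    have x4 : d * ((w.2 : ℝ) + 1) ≤ R.H := by
      have : d * ((w.2 : ℝ) + 1) ≤ d * (R.H / d) :=
        mul_le_mul_of_nonneg_left (by linarith) hδi.le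
      linarith
    have hnearw : ∀ (s : unitInterval) (i : ℕ), R.curve d F s = pos d ((R.dm d).walk F i) →
        sd ((R.dm d).walk F i).1 w ≤ 1 → dist (R.curve d F s) (zp d w) ≤ 4 * d := by
      intro s i hs hsd
      rw [hs]
      have h1 := dist_pos_zp hδi.le ((R.dm d).walk F i)
      have h2 := Y989.FR.LIM3.zp_le hδi.le ((R.dm d).walk F i).1 w
      have h3 : ((sd ((R.dm d).walk F i).1 w : ℤ) : ℝ) ≤ 1 := by exact_mod_cast hsd
      have h4 := dist_triangle (pos d ((R.dm d).walk F i)) (zp d ((R.dm d).walk F i).1) (zp d w)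
      nlinarith
    refine ⟨?_, fun j hj => ⟨(s1, s3, s2), ⟨⟨o1, o2⟩, ⟨o3, o4⟩⟩, ⟨?_, ?_⟩, ?_⟩⟩
    · rw [hKdef, Complex.mem_reProdIm, Set.mem_Icc, Set.mem_Icc, er, ei]
      exact ⟨⟨x1, x2⟩, x3, x4⟩
    · refine (hnearw s1 i1 c1 n1).trans ?_
      linarith
    · refine (hnearw s2 i2 c2 n2).trans ?_
      linarith
    · show ρ * S ≤ dist (R.curve d F s3) (zp d w)
      rw [c3]
      have h1 := dist_pos_zp hδi.le ((R.dm d).walk F i3)
      have h2 : 2 * (a : ℤ) - 2 ≤ sd w ((R.dm d).walk F i3).1 :=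
        sd_far hfar (by unfold sd; simp)
      have h3 := zp_dist hδi.le w ((R.dm d).walk F i3).1
      have h4 : (2 * (a : ℝ) - 2) ≤ ((sd w ((R.dm d).walk F i3).1 : ℤ) : ℝ) := by exact_mod_cast h2
      have h5 := dist_triangle (zp d w) (pos d ((R.dm d).walk F i3)) (zp d ((R.dm d).walk F i3).1)
      rw [dist_comm (zp d w) (pos d ((R.dm d).walk F i3))] at h5
      nlinarith

end Pool.Agent.U151.DB
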