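import Pool.Agent.U151.DB.ArcXD

/-!
Double points of all subpaths of the limits of the exploration path of a rectangle: lower bound for
all subpaths.
-/

set_option autoImplicit false

namespace Pool.Agent.U151.DB

open H974 H984N MeasureTheory Filter Topology
open Pool.Agent.U151.LB (DkX isOpen_DkX iUnion_DkX mono_DkX)
open scoped ENNReal NNReal

/-- Every subpath of the limit, unless it is a point, which meets the domain, has double points of
dimension at least `3/4`. -/
theorem arcsD (R : Rect) {δ : ℕ → ℝ} (hδ : ∀ i, 0 < δ i) (hlim : Tendsto δ atTop (𝓝 0))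
    {μ : ProbabilityMeasure X} (hμ : Tendsto (fun i => R.law (δ i)) atTop (𝓝 μ)) :
    ∀ᵐ p : X ∂(μ : Measure X), ∀ u v : unitInterval,
      (p.1 '' Set.Icc u v ∩ R.D).Nonempty → ¬ (p.1 '' Set.Icc u v).Subsingleton →
      (3/4 : ℝ≥0∞) ≤ dimH (Dp p.1 u v) := by
  have e34 : ENNReal.ofReal (3/4) = 3/4 := by
    rw [ENNReal.ofReal_div_of_pos (by norm_num)]
    norm_num
  have h3 : ∀ᵐ p : X ∂(μ : Measure X), ∀ j m : ℕ, ∀ u v : unitInterval, u ≤ v →
      p.1 u ∈ DkX R (5 * (1 / ((m : ℝ) + 1) / 2)) →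
      1 / ((m : ℝ) + 1) < dist (p.1 u) (p.1 v) →
      ENNReal.ofReal (3/4 - 1 / ((j:ℝ) + 1)) ≤ dimH (Dp p.1 u v) := by
    rw [ae_all_iff]
    intro j
    rw [ae_all_iff]
    intro m
    rcases le_or_gt (3/4 - 1 / ((j:ℝ) + 1)) 0 with h | h
    · filter_upwards with c u v _ _ _
      rw [ENNReal.ofReal_of_nonpos h]
      exact bot_le
    · have h4 : (0:ℝ) < 1 / ((j:ℝ) + 1) := by positivity
      exact llD R hδ hlim hμ h (by linarith) (by positivity)
  filter_upwards [h3] with c c3 u v huv1 huv2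
  have hlim : Tendsto (fun j : ℕ => ENNReal.ofReal (3/4 - 1 / ((j:ℝ) + 1))) atTop
      (𝓝 (ENNReal.ofReal (3/4 - 0))) := by
    apply ENNReal.tendsto_ofReal
    apply tendsto_const_nhds.sub
    exact tendsto_one_div_add_atTop_nhds_zero_nat
  rw [sub_zero, e34] at hlim
  refine le_of_tendsto' hlim (fun j => ?_)
  refine all_arcs (mono_DkX R) ?_ (fun m u v huv h1 h2 => c3 j m u v huv h1 h2) ?_ huv2
  · rw [iUnion_DkX]
    exact Pool.Agent.TH990.FU.D_open R
  · rw [iUnion_DkX]
    exact huv1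

end Pool.Agent.U151.DB
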