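import Pool.Agent.U151.DB.VisD
import Pool.Agent.U151.LB.LowV

/-!
LOW for double visits: union bound over the starts and the four directions, in every box.
-/

set_option autoImplicit false

namespace Pool.Agent.U151.DB

open H974 H12S H984P H342P Finset H984N
open Pool.Agent.W822.PD (EnV TrialR)
open Pool.Agent.U151.LB (LS4)

theorem sd_rV (v w : Vtx) : sd (rV v) (rV w) = sd v w := Pool.Agent.U151.LB.sd_rot v w

theorem rotD {t c E : ℝ} {a : ℕ} {d : ℤ} {σ : St} {τ : ℕ} {F : Finset Edg}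
    (h : RDb t c E a d (rS σ) τ (↑(rM F))) : RDb t c E a d σ τ (↑F) := by
  obtain ⟨V, hc, hE, hV⟩ := h
  refine ⟨V.map rV.symm.toEmbedding, ?_, ?_, ?_⟩
  · rw [Finset.card_map]
    exact hc
  · refine le_trans (le_of_eq ?_) hE
    unfold EnV
    rw [Finset.sum_map]
    refine Finset.sum_congr rfl fun v _ => ?_
    rw [Finset.sum_map]
    refine Finset.sum_congr rfl fun w _ => ?_
    have : sd (rV.symm v) (rV.symm w) = sd v w := by
      rw [← sd_rV, Equiv.apply_symm_apply, Equiv.apply_symm_apply]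
    simp only [Equiv.coe_toEmbedding, this]
  · intro v hv
    rw [Finset.mem_map] at hv
    obtain ⟨w, hw, rfl⟩ := hv
    obtain ⟨s1, s3, s2, h1, h2, h3, h4, h5, h6⟩ := hV w hw
    simp only [Equiv.coe_toEmbedding]
    have horb : ∀ s, (orb (↑(rM F)) (rS σ) s).1 = rV (orb (↑F) σ s).1 := by
      intro s
      rw [rot_orb]
      rfl
    rw [horb] at h4 h5 h6
    obtain ⟨w', rfl⟩ : ∃ w', w = rV w' := ⟨rV.symm w, (Equiv.apply_symm_apply _ _).symm⟩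
    rw [sd_rV] at h4 h5
    rw [Equiv.symm_apply_apply]
    exact ⟨s1, s3, s2, h1, h2, h3, h4, h5, LT_far.1 h6⟩

/-- LOW for double visits. -/
theorem lowD : ∃ C : ℝ, 0 < C ∧ ∀ (t c E : ℝ) (n a K : ℕ) (δ : ℝ) (R : ℤ), 5 ≤ a →
    1 ≤ K → 0 ≤ δ → δ ≤ 1 →
    (∀ b c' A y0 : ℤ, TrialR t c E (RE b (b + n) c' (c' + n)) A y0 a δ) →
    121 * a * (K + 1 : ℕ) + a + 2 ≤ R → ∀ b0 c0 : ℤ,
    Pr (fun _ => (1/2:ℝ)) (RE b0 (b0 + n) c0 (c0 + n)) (fun F => ∃ (σ : St) (τ : ℕ),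
      inR (b0 + 3 * R + 60 * a) (b0 + n - 3 * R - 60 * a) (c0 + 3 * R + 60 * a)
        (c0 + n - 3 * R - 60 * a) σ.1 ∧
      (∀ s < τ, ¬ Far σ.1 R (orb (↑F) σ s).1) ∧ Far σ.1 R (orb (↑F) σ τ).1 ∧
      ¬ RDb t c E a (2 * a) σ τ (↑F)) ≤
      C * ((n:ℝ) / a + 1) ^ 2 * (1 - δ) ^ K := by
  obtain ⟨C, hC, hcount⟩ := strand_count_sum
  refine ⟨8 * C, by positivity, ?_⟩
  intro t0 c1 E0 n a K δ R ha hK hδ0 hδ1 hok hR b0 c0
  have ha1 : 1 ≤ a := by omega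
  have hw : 0 ≤ (1 - δ) ^ K := pow_nonneg (by linarith) _
  have hR1 : 1 ≤ R := by
    have : (0:ℤ) ≤ 121 * a * (K + 1 : ℕ) := by positivity
    omega
  have h := LS4 (n := n) (B := 2 * C * ((n:ℝ) / a + 1) ^ 2 * (1 - δ) ^ K) (R := R)
    (b0 := b0) (c0 := c0)
    (E := fun b c F => ∃ i ∈ Finset.range (n / a + 2), ∃ y0 ∈ Finset.Icc c (c + n),
      RE ((b + i * a) - 60 * a) ((b + i * a) + 121 * a * (K + 1 : ℕ) + 60 * a)
        (y0 - 2 * R - 60 * a) (y0 + 2 * R + 60 * a) ⊆ RE b (b + n) c (c + n) ∧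
      (∃ (Y : ℤ) (T : ℕ), Strand (↑F) (b + i * a) y0 ((b + i * a) + 121 * a * (K + 1 : ℕ)) Y T ∧
        (∀ s ≤ T, |(orb (↑F) (st0 (b + i * a) y0) s).1.2 - y0| ≤ 2 * R) ∧
        ¬ RDb t0 c1 E0 a (2 * a) (st0 (b + i * a) y0) T (↑F)))
    (P := fun b c F σ t => inR (b + 3 * R + 60 * a) (b + n - 3 * R - 60 * a) (c + 3 * R + 60 * a)
      (c + n - 3 * R - 60 * a) σ.1 ∧
      (∀ s < t, ¬ Far σ.1 R (orb (↑F) σ s).1) ∧ ¬ RDb t0 c1 E0 a (2 * a) σ t (↑F))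
    ?_ ?_ ?_ (G := fun F => ∃ (σ : St) (τ : ℕ),
      inR (b0 + 3 * R + 60 * a) (b0 + n - 3 * R - 60 * a) (c0 + 3 * R + 60 * a)
        (c0 + n - 3 * R - 60 * a) σ.1 ∧
      (∀ s < τ, ¬ Far σ.1 R (orb (↑F) σ s).1) ∧ Far σ.1 R (orb (↑F) σ τ).1 ∧
      ¬ RDb t0 c1 E0 a (2 * a) σ τ (↑F)) ?_
  · refine h.trans (le_of_eq ?_)
    ring
  · intro b c
    refine LS_sum (K := K + 1) (R := R) (n := n) hw (by omega) hC hcount
      (fun A y0 F => ∃ (Y : ℤ) (T : ℕ), Strand (↑F) A y0 (A + 121 * a * (K + 1 : ℕ)) Y T ∧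
        (∀ s ≤ T, |(orb (↑F) (st0 A y0) s).1.2 - y0| ≤ 2 * R) ∧
        ¬ RDb t0 c1 E0 a (2 * a) (st0 A y0) T (↑F)) ?_
    intro A y0 hS
    refine ite_vis2 ha1 hK hδ1 (Finset.Subset.trans ?_ hS) (hok b c A y0)
    unfold H984P.BB
    refine RE_subset le_rfl ?_ le_rfl le_rfl
    push_cast
    nlinarith
  · rintro b c F σ t ⟨h1, h2, h3⟩
    refine ⟨?_, ?_, fun h4 => h3 (rotD h4)⟩
    · simp only [inR, rS, rV, Equiv.coe_fn_mk] at h1 ⊢
      omega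
    · intro s hs
      rw [rot_orb]
      exact fun hh => h2 s hs (LT_far.1 hh)
  · rintro b c F σ t ⟨hin, hf, hM⟩ hx
    obtain ⟨i, hi, y0, hy0, hS, Y, T, s0, hs0, hst, hT, hy⟩ :=
      LS_det (K := K + 1) ha1 (by omega) (by exact_mod_cast hR) hin hf hx
    refine ⟨i, hi, y0, hy0, by exact_mod_cast hS, Y, T, by exact_mod_cast hst, hy, fun h4 => hM ?_⟩
    obtain ⟨V, hV1, hV2, hV3⟩ := h4
    refine ⟨V, hV1, hV2, fun v hv => ?_⟩
    obtain ⟨s1, s3, s2, h1, h2, h3, h4, h5, h6⟩ := hV3 v hv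
    refine ⟨s1 + s0, s3 + s0, s2 + s0, by omega, by omega, by omega, ?_, ?_, ?_⟩
    · rw [orb_add, hs0]; exact h4
    · rw [orb_add, hs0]; exact h5
    · rw [orb_add, hs0]; exact h6
  · rintro F ⟨σ, τ, hin, hf, hfar, hM⟩
    obtain ⟨t, ht, hex⟩ := first_far hR1 ⟨τ, hfar⟩
    have hft : Far σ.1 R (orb (↑F) σ t).1 := by
      unfold Far
      omega
    have : t = τ := by
      rcases lt_trichotomy t τ with h | h | h
      · exact absurd hft (hf t h)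
      · exact h
      · exact absurd hfar (ht τ h)
    subst this
    exact ⟨σ, t, ⟨hin, hf, hM⟩, hex⟩

end Pool.Agent.U151.DB
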