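import Pool.Agent.U151.DB.LowD
import Pool.Agent.W806.PD.Tri
import Pool.Agent.W583.PDCen
import Pool.Agent.W125.PD.Det
import Pool.Agent.H984R3.Per.FinalSharp

/-!
Choice of the parameters, for double visits.
-/

set_option autoImplicit false

namespace Pool.Agent.U151.DB

open H974 H12S Finset H389NS H984P H984N H342P
open Pool.Agent.W822.PD (EnV TrialR PD_TRI)

theorem tri' : PD_TRI := Pool.Agent.W806.PDTri.tri Pool.Agent.W583.PDCen.cen Pool.Agent.W125.PD.det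

/-- Many vertices which are visited twice, with small energy, relative to the scale `n`. -/
def RDbN (t c E : ℝ) (n : ℕ) (d : ℤ) (σ : St) (τ : ℕ) (F : Set Edg) : Prop :=
  ∃ V : Finset Vtx, c * (n : ℝ) ^ (3/4 : ℝ) ≤ (V.card : ℝ) ∧
    EnV t V ≤ E * (n : ℝ) ^ (3/2 - t) ∧ ∀ v ∈ V, Dbl d σ τ F v

/-- Some strand of size `R` in the bulk of the box has few double visits. -/
def BadN (t c E : ℝ) (n a R : ℕ) (b c' : ℤ) (F : Finset Edg) : Prop :=
  ∃ (σ : St) (τ : ℕ), inR (b + 4 * R) (b + n - 4 * R) (c' + 4 * R) (c' + n - 4 * R) σ.1 ∧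
    (∀ s < τ, ¬ Far σ.1 R (orb (↑F) σ s).1) ∧ Far σ.1 R (orb (↑F) σ τ).1 ∧
    ¬ RDbN t c E n (2 * a) σ τ (↑F)

theorem parD {t : ℝ} (ht0 : 0 < t) (ht1 : t < 3/4) {κ δ : ℝ} (hκ : 0 < κ)
    (hδ : 0 < δ) : ∃ (ρ c E : ℝ), 0 < ρ ∧ 0 < c ∧ 0 < E ∧
    ∃ n0 : ℕ, ∀ n : ℕ, n0 ≤ n → ∃ a R : ℕ, 5 ≤ a ∧ ρ * n ≤ a ∧ 16 * a ≤ R ∧ (R : ℝ) ≤ κ * n ∧
      ∀ b c' : ℤ, Pr (fun _ => (1/2:ℝ)) (RE b (b + n) c' (c' + n)) (BadN t c E n a R b c') ≤
        δ := by
  have hok : Ok (fun _ : Edg => (1/2:ℝ)) := fun _ => ⟨by norm_num, by norm_num⟩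
  obtain ⟨Mt, c, E, δ1, hMt, hc, hE, hδ1, htr⟩ := tri' t ht0 ht1
  obtain ⟨C', hC', hlow⟩ := lowD
  obtain ⟨δ0, hδ0⟩ : ∃ δ0 : ℝ, δ0 = min δ1 (1/2) := ⟨_, rfl⟩
  have hδ0pos : 0 < δ0 := by rw [hδ0]; exact lt_min hδ1 (by norm_num)
  have hδ01 : δ0 ≤ 1 := by rw [hδ0]; exact (min_le_right _ _).trans (by norm_num)
  have hδ02 : δ0 ≤ 1/2 := by rw [hδ0]; exact min_le_right _ _
  obtain ⟨D2, hD2⟩ := exists_nat_gt (248 / κ)
  have hD2R : (0:ℝ) < D2 := lt_trans (by positivity) hD2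
  have hD2pos : 0 < D2 := by exact_mod_cast hD2R
  rw [div_lt_iff₀ hκ] at hD2
  obtain ⟨K, hKpos, hK⟩ := fs_small2 (C' * (9 * (D2:ℝ) ^ 2)) (q := 1 - δ0) (by linarith)
    (by linarith) hδ
  have hKR : (0:ℝ) < K := by exact_mod_cast hKpos
  have hK1 : (1:ℝ) ≤ K := by exact_mod_cast hKpos
  have hMR : (0:ℝ) < Mt := by exact_mod_cast hMt
  have hDK : 0 < D2 * K := by positivity
  have hDKM : 0 < D2 * K * Mt := by positivity
  refine ⟨1 / (2 * (D2 * K)), c * (1 / (2 * (D2 * K))) ^ (3/4 : ℝ), E,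
    by positivity, by positivity, hE, 2 * (D2 * K * Mt) + D2 * K * Mt * 5, fun n hn0 => ?_⟩
  obtain ⟨r, hr⟩ : ∃ r : ℕ, r = n / (D2 * K * Mt) := ⟨_, rfl⟩
  obtain ⟨hra, hrb⟩ := fs_div hDKM (show 2 * (D2 * K * Mt) ≤ n by omega)
  rw [← hr] at hra hrb
  push_cast at hra hrb
  have hr5 : 5 ≤ r := by
    rw [hr, Nat.le_div_iff_mul_le hDKM, mul_comm]
    omega
  obtain ⟨a, ha⟩ : ∃ a : ℕ, a = Mt * r := ⟨_, rfl⟩
  have haR0 : (a:ℝ) = Mt * r := by rw [ha]; push_cast; ring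
  have haa : (n:ℝ) / (2 * (D2 * K)) ≤ a := by
    rw [div_le_iff₀ (by positivity)] at hra ⊢
    rw [haR0]
    calc (n:ℝ) ≤ r * (2 * (D2 * K * Mt)) := hra
      _ = Mt * r * (2 * (D2 * K)) := by ring
  have hab : (a:ℝ) ≤ n / (D2 * K) := by
    rw [le_div_iff₀ (by positivity)] at hrb ⊢
    rw [haR0]
    calc (Mt:ℝ) * r * (D2 * K) = r * (D2 * K * Mt) := by ring
      _ ≤ n := hrb
  have ha5 : 5 ≤ a := by
    rw [ha]
    calc 5 ≤ 1 * r := by omega
      _ ≤ Mt * r := Nat.mul_le_mul_right r hMt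
  have haR : (5:ℝ) ≤ a := by exact_mod_cast ha5
  have hnpos : (0:ℝ) < n := by
    have : 0 < n := by omega
    exact_mod_cast this
  obtain ⟨R, hR⟩ : ∃ R : ℕ, R = 121 * a * (K + 1) + a + 2 := ⟨_, rfl⟩
  have hRa : 242 * a ≤ R := by
    rw [hR]
    have : 1 ≤ K := hKpos
    nlinarith
  refine ⟨a, R, ha5, ?_, by omega, ?_, ?_⟩
  · have f1 : 1 / (2 * ((D2:ℝ) * K)) * n = (n:ℝ) / (2 * (D2 * K)) := by
      field_simp
    rw [f1]
    exact haa
  · have h1 : (R:ℝ) ≤ 248 * (a * K) := by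
      rw [hR]
      push_cast
      nlinarith
    have h2 : (a:ℝ) * (D2 * K) ≤ n := by
      rw [le_div_iff₀ (by positivity)] at hab; exact hab
    have h3 : (248:ℝ) * (a * K) ≤ D2 * κ * (a * K) :=
      mul_le_mul_of_nonneg_right hD2.le (by positivity)
    calc (R:ℝ) ≤ D2 * κ * (a * K) := h1.trans h3
      _ = κ * (a * (D2 * K)) := by ring
      _ ≤ κ * n := mul_le_mul_of_nonneg_left h2 hκ.le
  · intro b c'
    have hall : ∀ b c' A y0 : ℤ, TrialR t c E (RE b (b + n) c' (c' + n)) A y0 a δ0 := by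
      intro b c' A y0 k F0 X Y T h1 h2 h3 h4 h5 h6 h7 h8
      rw [ha] at h4 h5 h8 ⊢
      refine le_trans ?_ (htr _ A y0 r (by omega) k F0 X Y T h1 h2 h3 h4 h5 h6 h7 h8)
      rw [hδ0]; exact min_le_left _ _
    have hRz : (121:ℤ) * a * (K + 1 : ℕ) + a + 2 ≤ (R:ℤ) := by
      rw [hR]; push_cast; linarith
    have hRz2 : (60:ℤ) * a ≤ R := by
      have : 60 * a ≤ R := by omega
      exact_mod_cast this
    have h1 := hlow t c E n a K δ0 (R:ℤ) (by omega) hKpos hδ0pos.le hδ01 hall hRz b c'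
    refine le_trans (Pr_mono hok ?_) (h1.trans (le_trans ?_ hK))
    · rintro F _ ⟨σ, τ, g1, g2, g3, g4⟩
      refine ⟨σ, τ, ?_, g2, g3, ?_⟩
      · unfold inR at g1 ⊢
        omega
      · rintro ⟨V, hV1, hV2, hV3⟩
        apply g4
        refine ⟨V, ?_, ?_, hV3⟩
        · refine le_trans ?_ hV1
          rw [mul_assoc, ← Real.mul_rpow (by positivity) hnpos.le]
          refine mul_le_mul_of_nonneg_left ?_ hc.le
          refine Real.rpow_le_rpow (by positivity) ?_ (by norm_num)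
          calc 1 / (2 * ((D2:ℝ) * K)) * n = n / (2 * (D2 * K)) := by ring
            _ ≤ a := haa
        · refine hV2.trans ?_
          refine mul_le_mul_of_nonneg_left ?_ hE.le
          refine Real.rpow_le_rpow (by positivity) ?_ (by linarith)
          have h5 : (a:ℝ) ≤ n := by
            refine hab.trans (div_le_self hnpos.le ?_)
            have : (1:ℝ) ≤ D2 * K := by exact_mod_cast hDK
            exact this
          exact h5
    · have f1 : (n:ℝ) / a ≤ 2 * (D2 * K) := by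
        rw [div_le_iff₀ (by linarith)]
        rw [div_le_iff₀ (by positivity)] at haa
        linarith
      have f2 : (1:ℝ) ≤ D2 * K := by exact_mod_cast hDK
      have f3 : ((n:ℝ) / a + 1) ^ 2 ≤ (3 * (D2 * K)) ^ 2 := by
        apply pow_le_pow_left₀ (by positivity)
        linarith
      have f4 : (0:ℝ) ≤ (1 - δ0) ^ K := pow_nonneg (by linarith) _
      calc C' * ((n:ℝ) / a + 1) ^ 2 * (1 - δ0) ^ K ≤ C' * (3 * (D2 * K)) ^ 2 * (1 - δ0) ^ K := by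
            gcongr
        _ = _ := by ring

end Pool.Agent.U151.DB
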