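import Pool.Agent.H984R3.Per.SideL

/-!
The two sides of a strand, with the corners (a copy of the proof of `H984P.side_exists`, which keeps
the corner property).
-/

set_option autoImplicit false

namespace Pool.Agent.U151.DB

open H974 Finset H342P H984P H984P.SideAux

theorem side_exists2 {F : Set Edg} {A y0 X Y : ℤ} {T : ℕ} (hst : Strand F A y0 X Y T) :
    ∃ hv hf : Vtx → ZMod 2, Side F A y0 X Y T hv hf ∧
      ∀ σ : St, hv σ.1 + hf (face σ) = b2 (σ ∈ AA F A y0 X Y T) := by
  obtain ⟨hv, hf, hP, hO, hC, h0⟩ := pot hst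
  have hmem : ∀ {σ : St}, σ ∈ AA F A y0 X Y T → hv σ.1 + hf (face σ) = 1 :=
    fun h => by rw [hP, b2_of h]
  have hnot : ∀ {σ : St}, σ ∉ AA F A y0 X Y T → hv σ.1 + hf (face σ) = 0 :=
    fun h => by rw [hP, b2_not_of h]
  have hvs : ∀ s ≤ T, hv (orb F (st0 A y0) s).1 = 0 := by
    intro s
    induction s with
    | zero => intro _; exact h0
    | succ s ih =>
      intro hs
      have h1 := ih (by omega)
      rw [← orb_step hst (by omega)]
      by_cases h2 : ae (orb F (st0 A y0) s) ∈ om F A y0 X Y T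
      · rw [nxt_open h2, mv_fst]
        have h3 := hO _ h2
        rcases ends (orb F (st0 A y0) s) with ⟨h4, h5⟩ | ⟨h4, h5⟩
        · rw [h4, h5] at h3
          rw [← h3, h1]
        · rw [h4, h5] at h3
          rw [h3, h1]
      · rw [nxt_closed h2, rt_fst, h1]
  have hfs : ∀ s ≤ T, hf (face (orb F (st0 A y0) s)) = 1 := fun s hs =>
    z2_one (hmem (orb_mem hs)) (hvs s hs)
  have hfree : ∀ e : Edg, e ∉ Exm F (st0 A y0) T → A ≤ e.1 → ¬ (X ≤ e.1 ∧ e.2.1 = Y) →
      hv (src e) = hv (tgt e) ∧ hf (dsrc e) = hf (dtgt e) ∧ hv (src e) = hf (dtgt e) := by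
    intro e h1 h2 h3
    obtain ⟨σ, rfl⟩ := exists_ae e
    have g1 : σ ∉ AA F A y0 X Y T := not_mem_of_free hst h1 h2 h3
    have g2 : op σ ∉ AA F A y0 X Y T := by
      apply not_mem_of_free hst <;> rw [ae_op] <;> assumption
    have g3 : nxt (om F A y0 X Y T) σ ∉ AA F A y0 X Y T := fun h => g1 ((inv hst σ).2 h)
    have g4 : nxt (om F A y0 X Y T) (op σ) ∉ AA F A y0 X Y T := fun h => g2 ((inv hst _).2 h)
    have k1 := z2_eq (hnot g1)
    have k2 := z2_eq (hnot g2)
    have k3 : hv (op σ).1 = hf (face σ) ∨ hv σ.1 = hf (face (op σ)) := by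
      by_cases h4 : ae σ ∈ om F A y0 X Y T
      · left
        have := z2_eq (hnot g3)
        rwa [nxt_open h4, mv_fst, face_mv] at this
      · right
        have := z2_eq (hnot g3)
        rwa [nxt_closed h4, rt_fst, face_rt] at this
    have k4 : hv (op σ).1 = hv σ.1 := by
      rcases k3 with k | k
      · rw [k, k1]
      · rw [k, k2]
    have k5 : hf (face (op σ)) = hf (face σ) := by rw [← k1, ← k2, k4]
    rcases ends σ with ⟨a1, a2⟩ | ⟨a1, a2⟩ <;> rcases faces σ with ⟨b1, b3⟩ | ⟨b1, b3⟩ <;>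
      rw [a1, a2, b1, b3] <;> simp [k1, k4, k5]
  have hExv : ∀ s < T, hv (op (orb F (st0 A y0) s)).1 = 0 →
      ∃ s' ≤ T, (orb F (st0 A y0) s').1 = (op (orb F (st0 A y0) s)).1 := by
    intro s hs h1
    have he : ae (orb F (st0 A y0) s) ∈ Exm F (st0 A y0) T := mem_Exm.2 ⟨s, hs, rfl⟩
    by_cases h2 : ae (orb F (st0 A y0) s) ∈ om F A y0 X Y T
    · refine ⟨s + 1, hs, ?_⟩
      rw [← orb_step hst hs, nxt_open h2, mv_fst]
    · by_cases h3 : op (orb F (st0 A y0) s) ∈ AA F A y0 X Y T
      · obtain ⟨s', hs', h4⟩ := mem_of_exm hst (by rw [ae_op]; exact he) h3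
        exact ⟨s', hs', by rw [h4]⟩
      · exfalso
        have h4 := hnot h3
        have h5 := hC _ h2
        have h6 := hfs s hs.le
        have h7 : hf (face (op (orb F (st0 A y0) s))) = 1 := by
          rcases faces (orb F (st0 A y0) s) with ⟨b1, b3⟩ | ⟨b1, b3⟩
          · rw [b1, b3] at h5; rw [← h5, h6]
          · rw [b1, b3] at h5; rw [h5, h6]
        exact z2_ne h4 h7 h1
  have hExf : ∀ s < T, hf (face (op (orb F (st0 A y0) s))) = 1 →
      ∃ s' ≤ T, face (orb F (st0 A y0) s') = face (op (orb F (st0 A y0) s)) := by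
    intro s hs h1
    have he : ae (orb F (st0 A y0) s) ∈ Exm F (st0 A y0) T := mem_Exm.2 ⟨s, hs, rfl⟩
    by_cases h2 : ae (orb F (st0 A y0) s) ∈ om F A y0 X Y T
    · by_cases h3 : op (orb F (st0 A y0) s) ∈ AA F A y0 X Y T
      · obtain ⟨s', hs', h4⟩ := mem_of_exm hst (by rw [ae_op]; exact he) h3
        exact ⟨s', hs', by rw [h4]⟩
      · exfalso
        have h4 := hnot h3
        have h5 := hO _ h2
        have h6 := hvs s hs.le
        have h7 : hv (op (orb F (st0 A y0) s)).1 = 0 := by
          rcases ends (orb F (st0 A y0) s) with ⟨b1, b3⟩ | ⟨b1, b3⟩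
          · rw [b1, b3] at h5; rw [← h5, h6]
          · rw [b1, b3] at h5; rw [h5, h6]
        exact z2_ne' h4 h7 h1
    · refine ⟨s + 1, hs, ?_⟩
      rw [← orb_step hst hs, nxt_closed h2, face_rt]
  have hR : ∀ x, X ≤ x → hv (x, Y) = 0 := by
    intro x hx
    induction x, hx using Int.leInduction with
    | base =>
      have := hvs T le_rfl
      rwa [hst.tip] at this
    | succ x hx ih =>
      have h1 : ((x, Y, true) : Edg) ∈ om F A y0 X Y T := by simp [mem_om, hx]
      have := hO _ h1
      simp only [src_mk, tgt_true] at this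
      rw [← this, ih]
  have hexr : ∀ x y : ℤ, X ≤ x → ∀ b : Bool, ((x, y, b) : Edg) ∉ Exm F (st0 A y0) T := by
    intro x y hx b he
    have := exm_loc hst he
    simp only at this
    omega
  have hRf : ∀ x, X ≤ x → hf (x, Y) = 1 := by
    intro x hx
    have := hmem (right_mem (F := F) (A := A) (y0 := y0) (Y := Y) (T := T) hx
      (q := .ne) (Or.inr rfl))
    exact z2_one this (hR x hx)
  have hAX := hst.lt
  have hup : ∀ x, X ≤ x → ∀ y, Y + 1 ≤ y → hv (x, y) = 1 := by
    intro x hx y hy
    induction y, hy using Int.leInduction with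
    | base =>
      have := z2_eq (hnot (right_not_mem hst (y := Y + 1) hx))
      simp only [face_se, add_sub_cancel_right] at this
      rw [this, hRf x hx]
    | succ y hy ih =>
      have := (hfree (x, y, false) (hexr x y hx false) (by simp only; omega)
        (by simp only; omega)).1
      simp only [src_mk, tgt_false] at this
      rw [← this, ih]
  have hdn : ∀ x, X ≤ x → ∀ y, y ≤ Y → hv (x, y) = 0 := by
    intro x hx y hy
    induction y, hy using Int.leInductionDown with
    | base => exact hR x hx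
    | pred y hy ih =>
      have := (hfree (x, y - 1, false) (hexr x _ hx false) (by simp only; omega)
        (by simp only; omega)).1
      simp only [src_mk, tgt_false, sub_add_cancel] at this
      rw [this, ih]
  refine ⟨hv, hf, ⟨fun s hs => ⟨hvs s hs, hfs s hs⟩, hfree, ?_, ?_, ?_, ?_⟩, hP⟩
  · intro e he
    obtain ⟨s, hs, rfl⟩ := mem_Exm.1 he
    rcases ends (orb F (st0 A y0) s) with ⟨b1, b3⟩ | ⟨b1, b3⟩ <;> rw [b1, b3]
    · exact ⟨fun _ => ⟨s, hs.le, rfl⟩, hExv s hs⟩
    · exact ⟨hExv s hs, fun _ => ⟨s, hs.le, rfl⟩⟩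
  · intro e he
    obtain ⟨s, hs, rfl⟩ := mem_Exm.1 he
    rcases faces (orb F (st0 A y0) s) with ⟨b1, b3⟩ | ⟨b1, b3⟩ <;> rw [b1, b3]
    · exact ⟨fun _ => ⟨s, hs.le, rfl⟩, hExf s hs⟩
    · exact ⟨hExf s hs, fun _ => ⟨s, hs.le, rfl⟩⟩
  · intro x y hx
    constructor
    · intro h
      by_contra hc
      rw [hup x hx y (by omega)] at h
      exact one_ne_zero h
    · exact hdn x hx y
  · intro x y hx
    constructor
    · intro h
      by_contra hc
      have h1 : hv (x, y) = 0 := hdn x hx y (by omega)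
      have h2 := (hfree (x, y, false) (hexr x y hx false) (by simp only; omega)
        (by simp only; omega)).2.2
      simp only [src_mk, dtgt_mk] at h2
      rw [← h2, h1] at h
      exact zero_ne_one h
    · intro h
      rcases h.eq_or_lt with rfl | h
      · exact hRf x hx
      · have h2 := (hfree (x, y, false) (hexr x y hx false) (by simp only; omega)
          (by simp only; omega)).2.2
        simp only [src_mk, dtgt_mk] at h2
        rw [← h2, hup x hx y (by omega)]


end Pool.Agent.U151.DB
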