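import Pool.Agent.U151.DB.Side2
import Pool.Agent.U151.LB.Vis
import Pool.Agent.W469.PD.Cur
import Pool.Agent.W135.PD.Ite

/-!
Pinches which a trial produces are visited twice by the prolonged strand, with an excursion between
the two visits.
-/

set_option autoImplicit false

namespace Pool.Agent.U151.DB

open H974 H984P H984P.SideAux H984N H342P Finset
open Pool.Agent.W822.PD (EnV PinA RPin TrialR)
open Pool.Agent.U151.LB (ends_mv faces_rt)

/-- Two visits near `v`, with an excursion to distance `d` in between. -/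
def Dbl (d : ℤ) (σ : St) (τ : ℕ) (F : Set Edg) (v : Vtx) : Prop :=
  ∃ s1 s3 s2 : ℕ, s1 ≤ s3 ∧ s3 ≤ s2 ∧ s2 ≤ τ ∧ sd (orb F σ s1).1 v ≤ 1 ∧
    sd (orb F σ s2).1 v ≤ 1 ∧ Far v d (orb F σ s3).1

theorem sd_ends {e : Edg} {v v2 : Vtx} (hor : (src e = v ∧ tgt e = v2) ∨ (src e = v2 ∧ tgt e = v)) :
    sd v2 v ≤ 1 := by
  obtain ⟨x, y, _ | _⟩ := e
  · rw [src_mk, tgt_false] at hor
    rcases hor with ⟨rfl, rfl⟩ | ⟨rfl, rfl⟩ <;> unfold sd <;> simp
  · rw [src_mk, tgt_true] at hor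
    rcases hor with ⟨rfl, rfl⟩ | ⟨rfl, rfl⟩ <;> unfold sd <;> simp

theorem sd_self (v : Vtx) : sd v v ≤ 1 := by
  unfold sd
  simp

/-- A pinch is visited twice. -/
theorem vis2 {F : Set Edg} {A y0 X Y : ℤ} {T : ℕ} (hst : Strand F A y0 X Y T) {W : Set Edg}
    (hW : ∀ e ∈ W, e ∈ Exm F (st0 A y0) T ∨ (A ≤ e.1 ∧ e.1 < X)) {v : Vtx} {d : ℤ} (hd : 1 ≤ d)
    (h : PinA d (st0 A y0) W F v) : Dbl d (st0 A y0) T F v := by
  obtain ⟨e, v2, u1, u2, heFW, hor, h3, ⟨h4, h5⟩, ⟨h6a, h6b⟩, h7, h8⟩ := h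
  obtain ⟨hv, hf, hS, hP⟩ := side_exists2 hst
  have c1 : ∀ e ∈ F ∩ W, hv (src e) = hv (tgt e) := by
    rintro e ⟨heF, heW⟩
    by_cases hE : e ∈ Exm F (st0 A y0) T
    · obtain ⟨s, hs, rfl⟩ := mem_Exm.1 hE
      have e1 := (hS.strand s hs.le).1
      have e2 := (hS.strand (s + 1) hs).1
      rw [orb_succ, nxt_open heF] at e2
      rcases ends_mv (σ := orb F (st0 A y0) s) with ⟨h3, h4⟩ | ⟨h3, h4⟩
      · rw [h3, h4, e1, e2]
      · rw [h3, h4, e1, e2]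
    · have h3 : A ≤ e.1 ∧ e.1 < X := (hW e heW).resolve_left hE
      exact (hS.free e hE h3.1 (by omega)).1
  have c2 : ∀ e ∈ W \ F, hf (dsrc e) = hf (dtgt e) := by
    rintro e ⟨heW, heF⟩
    by_cases hE : e ∈ Exm F (st0 A y0) T
    · obtain ⟨s, hs, rfl⟩ := mem_Exm.1 hE
      have e1 := (hS.strand s hs.le).2
      have e2 := (hS.strand (s + 1) hs).2
      rw [orb_succ, nxt_closed heF] at e2
      rcases faces_rt (σ := orb F (st0 A y0) s) with ⟨h3, h4⟩ | ⟨h3, h4⟩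
      · rw [h3, h4, e1, e2]
      · rw [h3, h4, e1, e2]
    · have h3 : A ≤ e.1 ∧ e.1 < X := (hW e heW).resolve_left hE
      exact (hS.free e hE h3.1 (by omega)).2.1
  have d1 : ∀ u, Reach (F ∩ W) (st0 A y0).1 u → hv (st0 A y0).1 = hv u := by
    intro u h
    induction h with
    | refl => rfl
    | tail _ hs ih =>
      obtain ⟨e, he, h | h⟩ := hs
      · rw [ih, ← h.1, ← h.2]; exact c1 e he
      · rw [ih, ← h.1, ← h.2]; exact (c1 e he).symm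
  have d2 : ∀ g, DReach (W \ F) (face (st0 A y0)) g → hf (face (st0 A y0)) = hf g := by
    intro u h
    induction h with
    | refl => rfl
    | tail _ hs ih =>
      obtain ⟨e, he, h | h⟩ := hs
      · rw [ih, ← h.1, ← h.2]; exact c2 e he
      · rw [ih, ← h.1, ← h.2]; exact (c2 e he).symm
  have z := hS.strand 0 (Nat.zero_le _)
  rw [orb_zero] at z
  have f1 : hv v = 0 := by rw [← d1 v h3, z.1]
  have g1 : hf (dsrc e) = 1 := by rw [← d2 _ h7, z.2]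
  have g2 : hf (dtgt e) = 1 := by rw [← d2 _ h8, z.2]
  have hse : hv (src e) = 0 ∧ hv (tgt e) = 0 := by
    have := c1 e heFW
    rcases hor with ⟨a1, a2⟩ | ⟨a1, a2⟩
    · rw [← this, a1]; exact ⟨f1, f1⟩
    · rw [this, a2]; exact ⟨f1, f1⟩
  have hE : e ∈ Exm F (st0 A y0) T := by
    by_contra hE
    have h3 : A ≤ e.1 ∧ e.1 < X := (hW e heFW.2).resolve_left hE
    have := (hS.free e hE h3.1 (by omega)).2.2
    rw [hse.1, g2] at this
    exact absurd this (by decide)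
  -- the two corners
  have key : ∀ σ : St, ae σ = e → ∃ s ≤ T, orb F (st0 A y0) s = σ := by
    intro σ hσ
    have k1 : hv σ.1 = 0 := by
      rcases SideAux.ends σ with ⟨a1, a2⟩ | ⟨a1, a2⟩
      · rw [← a1, hσ]; exact hse.1
      · rw [← a2, hσ]; exact hse.2
    have k2 : hf (face σ) = 1 := by
      rcases SideAux.faces σ with ⟨a1, a2⟩ | ⟨a1, a2⟩
      · rw [← a1, hσ]; exact g1
      · rw [← a2, hσ]; exact g2
    have k3 := hP σ
    rw [k1, k2, zero_add] at k3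
    have k4 : σ ∈ AA F A y0 X Y T := by
      by_contra hcon
      rw [b2_not_of hcon] at k3
      exact absurd k3 (by decide)
    exact mem_of_exm hst (by rw [hσ]; exact hE) k4
  obtain ⟨σ, hσ⟩ := exists_ae e
  obtain ⟨s1, hs1, e1⟩ := key σ hσ
  obtain ⟨s2, hs2, e2⟩ := key (op σ) (by rw [ae_op]; exact hσ)
  have hnear : ∀ ρ : St, ae ρ = e → sd ρ.1 v ≤ 1 := by
    intro ρ hρ
    rcases SideAux.ends ρ with ⟨a1, a2⟩ | ⟨a1, a2⟩
    · rw [hρ] at a1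
      rcases hor with ⟨b1, b2⟩ | ⟨b1, b2⟩
      · rw [← a1, b1]; exact sd_self v
      · rw [← a1, b1]; exact sd_ends (Or.inr ⟨b1, b2⟩)
    · rw [hρ] at a2
      rcases hor with ⟨b1, b2⟩ | ⟨b1, b2⟩
      · rw [← a2, b2]; exact sd_ends (Or.inl ⟨b1, b2⟩)
      · rw [← a2, b2]; exact sd_self v
  have hn1 : sd (orb F (st0 A y0) s1).1 v ≤ 1 := by rw [e1]; exact hnear σ hσ
  have hn2 : sd (orb F (st0 A y0) s2).1 v ≤ 1 := by
    rw [e2]; exact hnear (op σ) (by rw [ae_op]; exact hσ)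
  have hfc : (face (orb F (st0 A y0) s1) = dsrc e ∧ face (orb F (st0 A y0) s2) = dtgt e) ∨
      (face (orb F (st0 A y0) s1) = dtgt e ∧ face (orb F (st0 A y0) s2) = dsrc e) := by
    rw [e1, e2]
    rcases SideAux.faces σ with ⟨a1, a2⟩ | ⟨a1, a2⟩
    · rw [← hσ]; exact Or.inl ⟨a1.symm, a2.symm⟩
    · rw [← hσ]; exact Or.inr ⟨a2.symm, a1.symm⟩
  have heF : e ∈ F := heFW.1
  have m2 : (F ∩ W) \ {e} ⊆ F \ {e} := fun x hx => ⟨hx.1.1, hx.2⟩
  rcases le_total s1 s2 with hle | hle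
  · obtain ⟨k, hk, hfar⟩ := Pool.Agent.W469.PD.Cur.excursion hd heF hor (h4.mono m2) (h5.mono m2)
      h6a h6b (τ := orb F (st0 A y0) s1) (T := s2 - s1) (by
        rw [← orb_add, Nat.sub_add_cancel hle]; exact hfc)
    rw [← orb_add] at hfar
    exact ⟨s1, k + s1, s2, by omega, by omega, hs2, hn1, hn2, hfar⟩
  · obtain ⟨k, hk, hfar⟩ := Pool.Agent.W469.PD.Cur.excursion hd heF hor (h4.mono m2) (h5.mono m2)
      h6a h6b (τ := orb F (st0 A y0) s2) (T := s1 - s2) (by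
        rw [← orb_add, Nat.sub_add_cancel hle]; exact hfc.symm.imp And.symm And.symm)
    rw [← orb_add] at hfar
    exact ⟨s2, k + s2, s1, by omega, by omega, hs1, hn2, hn1, hfar⟩

/-- Many vertices which are visited twice, with small energy. -/
def RDb (t c E : ℝ) (a : ℕ) (d : ℤ) (σ : St) (τ : ℕ) (F : Set Edg) : Prop :=
  ∃ V : Finset Vtx, c * (a : ℝ) ^ (3/4 : ℝ) ≤ (V.card : ℝ) ∧
    EnV t V ≤ E * (a : ℝ) ^ (3/2 - t) ∧ ∀ v ∈ V, Dbl d σ τ F v

section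

open Pool.Agent.W135.PD

variable {t c E : ℝ} {S : Finset Edg} {A y0 H : ℤ} {a K : ℕ}

/-- all trials fail -/
theorem ite_all {δ : ℝ} (ha : 1 ≤ a) (hK : 1 ≤ K) (hδ1 : δ ≤ 1) (hS : BB A y0 H a K ⊆ S)
    (htr : TrialR t c E S A y0 a δ) :
    Pr (fun _ => (1/2:ℝ)) S (fun F => Long' A y0 H a K (↑F) ∧
      ∀ j, 1 ≤ j → j ≤ K → ITE_Fl t c E A y0 a j (↑F)) ≤
    (1 - δ) ^ K * Pr (fun _ => (1/2:ℝ)) S (fun F => Long' A y0 H a 1 (↑F)) := by
  have hp : Ok (fun _ : Edg => (1/2:ℝ)) := fun _ => ⟨by norm_num, by norm_num⟩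
  obtain ⟨K', rfl⟩ : ∃ K', K = K' + 1 := ⟨K - 1, by omega⟩
  have h3 : 0 ≤ 1 - δ := by linarith
  have h5 : Pr (fun _ => (1/2:ℝ)) S
      (fun F => ITE_EE t c E A y0 H a (K'+1) (↑F) ∧ ITE_Fl t c E A y0 a (K'+1) (↑F)) ≤
      (1 - δ) ^ (K' + 1) * Pr (fun _ => (1/2:ℝ)) S (fun F => Long' A y0 H a 1 (↑F)) := by
    refine (ITE_step ha hS (by omega) le_rfl htr).trans ?_
    calc (1 - δ) * _ ≤ (1 - δ) * ((1 - δ) ^ K' *
          Pr (fun _ => (1/2:ℝ)) S (fun F => Long' A y0 H a 1 (↑F))) :=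
          mul_le_mul_of_nonneg_left (ITE_EE_bound ha hδ1 hS htr K' le_rfl) h3
      _ = _ := by ring
  refine le_trans (Pr_mono hp fun F _ hF => ?_) h5
  obtain ⟨hL, hfail⟩ := hF
  exact ⟨⟨it_long hL, fun j hj hji => hfail j hj hji.le⟩, hfail (K' + 1) (by omega) le_rfl⟩

/-- a successful trial gives double visits -/
theorem succ_vis2 {F : Set Edg} (ha : 1 ≤ a) {i : ℕ} (hi : 1 ≤ i) (hiK : i ≤ K) {Y : ℤ} {T : ℕ}
    (hst : Strand F A y0 (A + 121 * a * (K + 1 : ℕ)) Y T)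
    (hs : ¬ ITE_Fl t c E A y0 a i F) : RDb t c E a (2 * a) (st0 A y0) T F := by
  unfold ITE_Fl at hs
  rw [not_not] at hs
  obtain ⟨V, hV1, hV2, hV3⟩ := hs
  refine ⟨V, hV1, hV2, fun v hv => ?_⟩
  have ha' : (1:ℤ) ≤ a := by exact_mod_cast ha
  have hi' : (1:ℤ) ≤ i := by exact_mod_cast hi
  have hiK' : (i:ℤ) ≤ K := by exact_mod_cast hiK
  obtain ⟨P, hP⟩ : ∃ P : ℤ, P = (a:ℤ) * i := ⟨_, rfl⟩
  obtain ⟨Q, hQ⟩ : ∃ Q : ℤ, Q = (a:ℤ) * K := ⟨_, rfl⟩
  have hP1 : (a:ℤ) ≤ P := by rw [hP]; nlinarith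
  have hPQ : P ≤ Q := by rw [hP, hQ]; nlinarith
  have eP : A + 121 * (a:ℤ) * i = A + 121 * P := by rw [hP]; ring
  have eQ : A + 121 * (a:ℤ) * ((K + 1 : ℕ) : ℤ) = A + 121 * Q + 121 * a := by
    rw [hQ]; push_cast; ring
  -- the long strand determines the short one
  have hcr : CR A y0 (Finset.sup' (Finset.range (T + 1)) ⟨0, Finset.mem_range.2 (by omega)⟩
      (fun s => |(orb F (st0 A y0) s).1.2 - y0|)) a (K + 1) F := by
    apply it_long
    refine ⟨Y, T, hst, fun s hs => ?_⟩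
    exact Finset.le_sup' (fun s => |(orb F (st0 A y0) s).1.2 - y0|)
      (Finset.mem_range.2 (by omega))
  have hdown := it_down (j := i) (by omega) hi (by omega : i ≤ K + 1) hcr
  have hT := (it_of_strand hst).1
  have hsub : Exm F (st0 A y0) (tT A y0 F (A + 121 * a * i)) ⊆ Exm F (st0 A y0) T := by
    apply it_exm_mono
    rw [← hT]
    exact hdown.2
  have hW : ∀ e ∈ (↑(Exm F (st0 A y0) (tT A y0 F (A + 121 * a * i)) ∪
      Bl (A + 121 * a * i) (tY A y0 F (A + 121 * a * i)) a) : Set Edg),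
      e ∈ Exm F (st0 A y0) T ∨ (A ≤ e.1 ∧ e.1 < A + 121 * a * (K + 1 : ℕ)) := by
    intro e he
    rw [Finset.mem_coe, Finset.mem_union] at he
    rcases he with he | he
    · exact Or.inl (hsub he)
    · right
      rw [eQ]
      rw [eP] at he
      unfold Bl at he
      obtain ⟨x, y, _ | _⟩ := e
      · rw [mem_RE_false] at he
        simp only
        omega
      · rw [mem_RE_true] at he
        simp only
        omega
  exact vis2 hst hW (by omega) (hV3 v hv)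

/-- ITE for double visits. -/
theorem ite_vis2 {δ : ℝ} (ha : 1 ≤ a) (hK : 1 ≤ K) (hδ1 : δ ≤ 1) (hS : BB A y0 H a K ⊆ S)
    (htr : TrialR t c E S A y0 a δ) :
    Pr (fun _ => (1/2:ℝ)) S (fun F => ∃ (Y : ℤ) (T : ℕ),
      Strand (↑F) A y0 (A + 121 * a * (K + 1 : ℕ)) Y T ∧
      (∀ s ≤ T, |(orb (↑F) (st0 A y0) s).1.2 - y0| ≤ H) ∧
      ¬ RDb t c E a (2 * a) (st0 A y0) T (↑F)) ≤
    (1 - δ) ^ K * Pr (fun _ => (1/2:ℝ)) S (fun F => Long' A y0 H a 1 (↑F)) := by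
  have hp : Ok (fun _ : Edg => (1/2:ℝ)) := fun _ => ⟨by norm_num, by norm_num⟩
  refine le_trans (Pr_mono hp fun F _ hF => ?_) (ite_all (by omega) hK hδ1 hS htr)
  obtain ⟨Y, T, hst, hy, hno⟩ := hF
  refine ⟨?_, fun j hj hjK => ?_⟩
  · have hcr := it_long (i := K + 1) (show Long' A y0 H a (K + 1) (↑F) from ⟨Y, T, hst, hy⟩)
    have h2 := (it_down (j := K) (by omega) hK (by omega) hcr).1
    exact ⟨_, _, h2.1, h2.2⟩
  · by_contra hcon
    exact hno (succ_vis2 ha hj hjK hst hcon)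

end

end Pool.Agent.U151.DB
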